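import Pool.Agent.Y5.E.Stm

/-!
Definitions for the Navier-Stokes equations with additional linear dissipation of order `2 α'`,
where `α' > α` is arbitrarily close to `α`
(geometric scales; the amplitudes of the main modes decay like `κ ^ n`).
-/

open Set Filter Topology MeasureTheory

set_option autoImplicit false

namespace Pool.Agent.Y5.F

open Pool.Agent.Y5.D Pool.Agent.Y5.E

/-! ### Parameters -/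

/-- damping rates: `ℓ n` for the main modes, `S n` for the other modes of the group `n` -/
noncomputable def dF {J : Type} (ℓ S : ℕ → ℝ) (g : J → ℕ) : Ix J → ℝ
  | Sum.inl n => ℓ n
  | Sum.inr j => S (g j)

/-- the damping of the other modes -/
noncomputable def Sd (κ μ : ℝ) (L : ℕ → ℝ) (n : ℕ) : ℝ := Real.exp μ * (κ ^ n * L n)

/-- Conditions on the parameters (`κ = 1`, `μ = lam` in stage 3). -/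
structure Sq4 (κ μ lam Λ M : ℝ) (L C ℓ : ℕ → ℝ) (B : ℕ → ℕ → ℝ) : Prop where
  κ0 : 0 < κ
  κ1 : κ ≤ 1
  μ_eq : μ = κ * lam
  μ_big : 10 ^ 30 ≤ μ
  L0 : 1 ≤ L 0
  L_succ : ∀ n, L (n + 1) = lam * L n
  Λ_ge : 2 ≤ Λ
  Λ_sq : Λ ^ 2 ≤ μ
  M_one : 1 ≤ M
  exp_big : (10 ^ 6 * M ^ 4 * lam ^ 3) ^ 10 ≤ Real.exp (μ / 10 ^ 6)
  C_lo : ∀ n, κ * Real.exp (-(301 / 10000 * μ)) ≤ C n
  C_hi : ∀ n, C n ≤ κ * Real.exp (-(299 / 10000 * μ))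
  B_lo : ∀ i n, i < n → 999 / 1000 ≤ B i n
  B_hi : ∀ i n, i < n → B i n ≤ 1001 / 1000
  ℓ_nonneg : ∀ n, 0 ≤ ℓ n
  ℓ_zero : 10 ^ 6 * (ℓ 0 * μ) ≤ L 0
  ℓ_succ : ∀ n, 10 ^ 6 * ℓ (n + 1) ≤ κ ^ n * L n * (9 / 1000) ^ n
  ℓ_low : ∃ a, 0 < a ∧ ∀ n, a * Λ ^ (2 * n) ≤ ℓ n

/-! ### The reduced system -/

noncomputable def Aq (q : ℝ) (x w : ℕ → ℝ → ℝ) (m : ℕ) (t : ℝ) : ℝ :=
  ∑ p ∈ Finset.range m, q ^ (m - 1 - p) * (|x p t| + w p t)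

noncomputable def Awq (q : ℝ) (w : ℕ → ℝ → ℝ) (m : ℕ) (t : ℝ) : ℝ :=
  ∑ p ∈ Finset.range m, q ^ (m - 1 - p) * w p t

/-- The reduced system (`S n` is the damping of the other modes of the group `n`,
`q = Λ / lam`). -/
structure Su (q N : ℝ) (L C ℓ S : ℕ → ℝ) (B : ℕ → ℕ → ℝ) (T : ℝ) (x w f : ℕ → ℝ → ℝ) :
    Prop where
  dx : ∀ n, ∀ t ∈ Ico 0 T, HasDerivWithinAt (x n)
    (vf3 L C ℓ B (fun m => x m t) n + f n t) (Ico 0 T) t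
  fb : ∀ n, ∀ t ∈ Ico 0 T, |f n t| ≤ N * (L n * (Aq q x w n t + √(Yt x w n t)) * √(Wt w n t)
    + Uw L w n t * √(Yt x w n t) + L n * Awq q w n t * √(Yt x w (n + 1) t) + loc L x w n t)
  w0 : ∀ n, ∀ t ∈ Ico 0 T, 0 ≤ w n t
  dw : ∀ n, ∀ t ∈ Ico 0 T, ∃ D, HasDerivWithinAt (fun τ => w n τ ^ 2) D (Ico 0 T) t ∧
    D ≤ -(2 * S n * w n t ^ 2) + 2 * w n t * (N * (
      L n * (Aq q x w n t + √(Yt x w n t)) * √(Yt x w n t)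
      + (if n = 0 then 0 else L (n - 1) * Aq q x w n t * (|x (n - 1) t| + w (n - 1) t))))
  dY0 : ∀ t ∈ Ico 0 T, ∃ D, HasDerivWithinAt (Yt x w 0) D (Ico 0 T) t ∧ D ≤ 0
  dY : ∀ n, ∀ t ∈ Ico 0 T, ∃ D, HasDerivWithinAt (Yt x w (n + 1)) D (Ico 0 T) t ∧
    D ≤ 2 * (C n * L n * x n t ^ 2 + N * loc L x w (n + 1) t) * √(Yt x w (n + 1) t)
      + 2 * (1001 / 1000 * Ut L x (n + 1) t + N * Uw L w (n + 1) t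
        + N * (Ut L x (n + 1) t ^ 2 / S (n + 1))) * Yt x w (n + 1) t
      + N * (L n ^ 2 / S (n + 1) * (Aq q x w (n + 1) t ^ 2 * (|x n t| + w n t) ^ 2))
  bdd : ∀ k : ℕ, ∀ T' < T, ∃ M, ∀ t ∈ Icc 0 T', ∀ n, L n ^ k * (|x n t| + w n t) ≤ M
  en : ∀ t ∈ Ico 0 T, Yt x w 0 t ≤ 1
  x0 : x 0 0 = 1
  xs : ∀ n, x (n + 1) 0 = 0
  ws : ∀ n, w n 0 = 0

/-- The growth of the main modes (`θ = κ`). -/
def Grow4 (κ μ T : ℝ) (x w : ℕ → ℝ → ℝ) : Prop :=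
  ∀ n, ∃ t ∈ Ico 0 T, ∃ a, (9 / 1000 * κ) ^ n ≤ a ∧ 99 / 100 * a ≤ x n t ∧
    (∀ i < n, |x i t| ≤ 200 * (1000 / (9 * κ)) ^ (n - i) * a) ∧
    (∀ i ≤ n, w i t ≤ Real.exp (-(μ / 10)) * (1000 / (9 * κ)) ^ (n - i) * a) ∧
    ∀ k : ℕ, √(Yt x w (n + 1 + k) t) ≤ Real.exp (-(μ / 100 * (k + 1))) * a

/-! ### The rescaled system: `x n / κ ^ n`, `κ ^ n * L n`, `C n / κ` -/

noncomputable def Yk (κ : ℝ) (x w : ℕ → ℝ → ℝ) (m : ℕ) (t : ℝ) : ℝ :=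
  ∑' k : ℕ, κ ^ (2 * k) * (x (m + k) t ^ 2 + w (m + k) t ^ 2)

noncomputable def Wk (κ : ℝ) (w : ℕ → ℝ → ℝ) (m : ℕ) (t : ℝ) : ℝ :=
  ∑' k : ℕ, κ ^ (2 * k) * w (m + k) t ^ 2

/-- Vector field of the main modes. -/
noncomputable def vfk (κ : ℝ) (L C ℓ : ℕ → ℝ) (B : ℕ → ℕ → ℝ) (x : ℕ → ℝ) (n : ℕ) : ℝ :=
  -(ℓ n * x n)
  + (if n = 0 then 0 else L (n - 1) * C (n - 1) * x (n - 1) ^ 2)
  - κ ^ 2 * (L n * C n * x n * x (n + 1))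
  + x n * ∑ i ∈ Finset.range n, L i * B i n * x i
  - L n * ∑' m : ℕ, B n (n + 1 + m) * (κ ^ (2 * (m + 1)) * x (n + 1 + m) ^ 2)

/-- Conditions on the parameters of the rescaled system. -/
structure Pk (κ lam N : ℝ) (L C ℓ : ℕ → ℝ) (B : ℕ → ℕ → ℝ) : Prop where
  κ0 : 0 < κ
  κ1 : κ ≤ 1
  κN : 1 ≤ κ * N
  lam_big : 10 ^ 30 ≤ lam
  L0 : 1 ≤ L 0
  L_succ : ∀ n, L (n + 1) = lam * L n
  N_one : 1 ≤ N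
  N_le : N ≤ Real.exp (lam / 10 ^ 7)
  C_lo : ∀ n, Real.exp (-(301 / 10000) * lam) ≤ C n
  C_hi : ∀ n, C n ≤ Real.exp (-(299 / 10000) * lam)
  B_lo : ∀ i n, i < n → 999 / 1000 ≤ B i n
  B_hi : ∀ i n, i < n → B i n ≤ 1001 / 1000
  ℓ_nonneg : ∀ n, 0 ≤ ℓ n
  ℓ_zero : 10 ^ 6 * (ℓ 0 * lam) ≤ L 0
  ℓ_succ : ∀ n, 10 ^ 6 * ℓ (n + 1) ≤ L n * (9 / 1000) ^ n

/-- The rescaled reduced system. -/
structure SysK (κ lam N : ℝ) (L C ℓ : ℕ → ℝ) (B : ℕ → ℕ → ℝ) (T : ℝ) (x w f : ℕ → ℝ → ℝ) :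
    Prop where
  dx : ∀ n, ∀ t ∈ Ico 0 T, HasDerivWithinAt (x n)
    (vfk κ L C ℓ B (fun m => x m t) n + f n t) (Ico 0 T) t
  fb : ∀ n, ∀ t ∈ Ico 0 T, |f n t| ≤ N * (L n * (At lam x w n t + √(Yk κ x w n t))
      * √(Wk κ w n t)
    + Uw L w n t * √(Yk κ x w n t) + L n * Aw lam w n t * √(Yk κ x w (n + 1) t)
    + loc L x w n t)
  w0 : ∀ n, ∀ t ∈ Ico 0 T, 0 ≤ w n t
  dw : ∀ n, ∀ t ∈ Ico 0 T, ∃ D, HasDerivWithinAt (fun τ => w n τ ^ 2) D (Ico 0 T) t ∧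
    D ≤ -(2 * Real.exp lam * L n * w n t ^ 2) + 2 * w n t * (N * (
      L n * (At lam x w n t + √(Yk κ x w n t)) * √(Yk κ x w n t)
      + (if n = 0 then 0 else L (n - 1) * At lam x w n t * (|x (n - 1) t| + w (n - 1) t))))
  dY0 : ∀ t ∈ Ico 0 T, ∃ D, HasDerivWithinAt (Yk κ x w 0) D (Ico 0 T) t ∧ D ≤ 0
  dY : ∀ n, ∀ t ∈ Ico 0 T, ∃ D, HasDerivWithinAt (Yk κ x w (n + 1)) D (Ico 0 T) t ∧
    D ≤ 2 * (C n * L n * x n t ^ 2 + N * loc L x w (n + 1) t) * √(Yk κ x w (n + 1) t)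
      + 2 * (1001 / 1000 * Ut L x (n + 1) t + N * Uw L w (n + 1) t
        + N / Real.exp lam * (Ut L x (n + 1) t ^ 2 / L (n + 1))) * Yk κ x w (n + 1) t
      + N / Real.exp lam * (L n * At lam x w (n + 1) t ^ 2 * (|x n t| + w n t) ^ 2)
  bdd : ∀ T' < T, ∃ M, ∀ t ∈ Icc 0 T', ∀ n, L n ^ 10 * (|x n t| + w n t) ≤ M
  en : ∀ t ∈ Ico 0 T, Yk κ x w 0 t ≤ 1
  x0 : x 0 0 = 1
  xs : ∀ n, x (n + 1) 0 = 0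
  ws : ∀ n, w n 0 = 0

/-- The growth of the main modes in the rescaled system. -/
def GrowK (κ lam T : ℝ) (x w : ℕ → ℝ → ℝ) : Prop :=
  ∀ n, ∃ t ∈ Ico 0 T, ∃ a, (9 / 1000) ^ n ≤ a ∧ 99 / 100 * a ≤ x n t ∧
    (∀ i < n, |x i t| ≤ 200 * (1000 / 9) ^ (n - i) * a) ∧
    (∀ i ≤ n, w i t ≤ Real.exp (-(lam / 10)) * (1000 / 9) ^ (n - i) * a) ∧
    ∀ k : ℕ, √(Yk κ x w (n + 1 + k) t) ≤ Real.exp (-(lam / 100 * (k + 1))) * a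

/-! ### The orthonormal system -/

/-- The orthonormal system `e`, in groups; `F n` bounds the frequencies of the group `n`. -/
structure Conc4 {J : Type} (ν α α' κ μ lam : ℝ) (g : J → ℕ) (F L ℓ N G : ℕ → ℝ)
    (e : Ix J → Fam) : Prop where
  ot : ∀ a, OT (e a)
  fsupp : ∀ a k, e a k ≠ 0 → 1 ≤ ‖vec k‖ ∧ ‖vec k‖ ≤ F (gr g a)
  F_cmp : ∃ D : ℝ, 0 < D ∧ ∀ a k, e a k ≠ 0 → F (gr g a) ≤ D * ‖vec k‖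
  F_L : ∃ D : ℝ, 0 < D ∧ ∀ n, F n ≤ D * L n
  L_F : ∃ D : ℝ, 0 < D ∧ ∀ n, L n ≤ D * F n ^ (5 / 2 : ℝ)
  S_F : ∃ D : ℝ, 0 < D ∧ ∀ n, κ ^ n * L n ≤ D * F n ^ (2 * α')
  disj : ∀ a b k, e a k ≠ 0 → e b k ≠ 0 → gr g a = gr g b
  orth : ∀ a b, (a = b → pair (e a) (e b) = 1) ∧ (a ≠ b → pair (e a) (e b) = 0)
  compl : ∀ V, OT V → (∀ a, pair V (e a) = 0) → ∀ k, V k = 0
  low : ∀ n, 2 * (ν * ∑' k, (2 * Real.pi * ‖vec k‖) ^ (2 * α) * ‖e (Sum.inl n) k‖ ^ 2) ≤ ℓ n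
  lowo : ∀ n, 2 * (ν * (2 * Real.pi * F n) ^ (2 * α)) ≤ Real.exp μ * (κ ^ n * L n)
  G0 : ∀ n, 0 ≤ G n
  cnt : ∀ n, ({k | ∃ a, gr g a = n ∧ e a k ≠ 0}.ncard : ℝ) ≤ G n ^ 2
  N0 : 1 ≤ N 0
  N_grow : ∀ n, 10 ^ 9 * N n ≤ κ * N (n + 1)
  N_up : ∀ n, N (n + 1) ≤ lam * N n
  G_le : ∀ n, G n ≤ Real.exp (μ / 1000) * N n
  l1N : ∀ n, ∑' k, ‖e (Sum.inl n) k‖ ≤ N n
  pt : ∀ n, ∃ y : E3, N n / 1000 ≤
    ‖∑' k : Z3, Real.sin (2 * Real.pi * inner ℝ (vec k) y) • e (Sum.inl n) k‖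

/-- The linear dissipation `L = ∑ lam i ⟨·, e i⟩ e i`: a complete orthonormal system of
eigenfields `e i` (trigonometric polynomials) with eigenvalues `lam i ≥ 0` such that
`ν (-Δ)^α ≤ L ≤ C (-Δ)^α'` as quadratic forms, and `L` is of order at most `2 α'`. -/
structure Diss4 {ι : Type} (ν α α' : ℝ) (e : ι → E3 → E3) (lam : ι → ℝ) : Prop where
  field : ∀ i, TP (e i)
  nonneg : ∀ i, 0 ≤ lam i
  orth : ∀ i j, (i = j → ip (e i) (e j) = 1) ∧ (i ≠ j → ip (e i) (e j) = 0)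
  compl : ∀ v, PF v → (∀ i, ip v (e i) = 0) → ∀ y, v y = 0
  low : ∀ v, PF v → Summable (fun i => lam i * ip v (e i) ^ 2) ∧
    ν * sob α v ≤ ∑' i, lam i * ip v (e i) ^ 2
  up : ∃ Cu : ℝ, ∀ v, PF v → ∑' i, lam i * ip v (e i) ^ 2 ≤ Cu * sob α' v
  ord : ∀ m : ℕ, ∃ Cm : ℝ, ∀ v, PF v → ∃ w, PF w ∧ (∀ i, ip w (e i) = lam i * ip v (e i)) ∧
    sob m w ≤ Cm * sob (m + 2 * α') v

end Pool.Agent.Y5.F
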