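import Pool.Agent.Y5.F.Q9

/-! Closing the bootstrap. -/

open Set Filter Topology MeasureTheory

set_option autoImplicit false

namespace Pool.Agent.Y5.F

open Pool.Agent.Y5.E (At Aw Ut Uw loc)

section seq

variable {κ lam N : ℝ} {L C ℓ : ℕ → ℝ} {B : ℕ → ℕ → ℝ}

lemma exp_half (q : Pk κ lam N L C ℓ B) (j : ℕ) :
    Real.exp (-(41 / 1000 * (j : ℝ)) * lam) ≤ (1 / 2) ^ j := by
  have h1 : Real.exp (-(41 / 1000) * lam) ≤ 1 / 2 :=
    (q.exp_small (by norm_num)).trans (by norm_num)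
  have e : Real.exp (-(41 / 1000 * (j : ℝ)) * lam) = Real.exp (-(41 / 1000) * lam) ^ j := by
    rw [← Real.exp_nat_mul]; congr 1; ring
  rw [e]
  gcongr

lemma Rp_half (q : Pk κ lam N L C ℓ B) (j : ℕ) :
    Real.exp (-(Rp j) * lam) ≤ (1 / 2) ^ j := by
  refine le_trans ?_ (exp_half q j)
  apply Real.exp_le_exp.2
  unfold Rp
  have := q.lamp
  nlinarith

lemma bb_half (q : Pk κ lam N L C ℓ B) {x : ℕ → ℝ → ℝ} {a : ℕ → ℝ} {n : ℕ} {t : ℝ} (ha : 0 < a n)
    (j : ℕ) : bb lam C x a n j t ≤ bb lam C x a n 0 t * (1 / 2) ^ j := by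
  have h := exp_half q j
  have e : bb lam C x a n j t
      = bb lam C x a n 0 t * Real.exp (-(41 / 1000 * (j : ℝ)) * lam) := by
    unfold bb Rr
    have : Real.exp (-(25 / 1000 + 41 / 1000 * (j : ℝ)) * lam)
        = Real.exp (-(25 / 1000 + 41 / 1000 * ((0 : ℕ) : ℝ)) * lam)
          * Real.exp (-(41 / 1000 * (j : ℝ)) * lam) := by
      rw [← Real.exp_add]; congr 1; push_cast; ring
    rw [this]; ring
  rw [e]
  have : 0 < bb lam C x a n 0 t := by unfold bb; positivity
  gcongr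

lemma b0_of (q : Pk κ lam N L C ℓ B) {x : ℕ → ℝ → ℝ} {a : ℕ → ℝ} {n : ℕ} {t : ℝ} (ha : 0 < a n)
    (h1 : 74 / 100 * C n ≤ rt C x n t) (h2 : rt C x n t ≤ 1 / 100 + C n) :
    bb lam C x a n 0 t ≤ a n * rt C x n t := by
  obtain ⟨hρ0, _, he0, _, _⟩ := th_bounds q h1 h2
  have hlb := q.lam_big
  have e : Rr 0 = 25 / 1000 := by simp [Rr]
  unfold bb
  rw [e]
  calc a n * Real.exp (-(25 / 1000) * lam) * Real.exp (th lam C x n t)
      ≤ a n * Real.exp (-(25 / 1000) * lam)
        * (100 * rt C x n t * Real.exp (101 / 10000 * lam + 2)) := by gcongr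
    _ = (100 * (Real.exp (-(25 / 1000) * lam) * Real.exp (101 / 10000 * lam + 2)))
        * (a n * rt C x n t) := by ring
    _ ≤ 1 * (a n * rt C x n t) := by
        gcongr
        rw [← Real.exp_add]
        have h5 : (100 : ℝ) ≤ Real.exp 100 := by
          have := Real.add_one_le_exp (100 : ℝ); linarith
        calc 100 * Real.exp (-(25 / 1000) * lam + (101 / 10000 * lam + 2))
            ≤ Real.exp 100 * Real.exp (-(25 / 1000) * lam + (101 / 10000 * lam + 2)) := by
              gcongr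
          _ = Real.exp (100 + (-(25 / 1000) * lam + (101 / 10000 * lam + 2))) := by
              rw [← Real.exp_add]
          _ ≤ 1 := by
              apply Real.exp_le_one_iff.2
              linarith
    _ = _ := one_mul _

end seq

namespace Gd

variable {κ lam N : ℝ} {L C ℓ : ℕ → ℝ} {B : ℕ → ℕ → ℝ} {T : ℝ} {x w f : ℕ → ℝ → ℝ}
variable {n : ℕ} {σ a : ℕ → ℝ} {t1 t : ℝ}

lemma W_geo (g : Gd κ lam N L C ℓ B T x w f) (ht : t ∈ Ico 0 T) (m : ℕ) {K : ℝ}
    (h : ∀ j : ℕ, w (m + j) t ≤ K * (1 / 2) ^ j) : √(Wk κ w m t) ≤ 2 * K := by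
  have hK : 0 ≤ K := by
    have h1 := h 0
    have h2 := g.sy.w0 (m + 0) t ht
    simp at h1 h2
    linarith
  apply Real.sqrt_le_iff.2
  refine ⟨by positivity, ?_⟩
  have hs : Summable (fun j : ℕ => K ^ 2 * (1 / 2 : ℝ) ^ j) := geo K
  calc Wk κ w m t ≤ ∑' j : ℕ, K ^ 2 * (1 / 2 : ℝ) ^ j := by
        refine (g.summkw ht m).tsum_le_tsum (fun j => ?_) hs
        refine (mul_le_of_le_one_left (sq_nonneg _) (g.q.κk _)).trans ?_
        have h1 := h j
        have h2 := g.sy.w0 (m + j) t ht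
        have h3 : ((1 : ℝ) / 2) ^ j ≤ 1 := pow_le_one₀ (by norm_num) (by norm_num)
        calc w (m + j) t ^ 2 ≤ (K * (1 / 2) ^ j) ^ 2 := by gcongr
          _ = K ^ 2 * (1 / 2) ^ j * (1 / 2) ^ j := by ring
          _ ≤ K ^ 2 * (1 / 2) ^ j * 1 := by gcongr
          _ = _ := mul_one _
    _ = K ^ 2 * 2 := by
        rw [tsum_mul_left, tsum_geometric_of_lt_one (by norm_num) (by norm_num)]
        norm_num
    _ ≤ _ := by nlinarith [sq_nonneg K]

/-- the next mode is not very negative at the beginning of the stage -/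
lemma hr0 (g : Gd κ lam N L C ℓ B T x w f) (h : Stg κ lam L T x w n σ a) :
    -(C n / 8) ≤ x (n + 1) (σ n) / x n (σ n) := by
  have q := g.q
  have ha := apos h n le_rfl
  have hX : 0 < x n (σ n) := (by positivity : 0 < 995 / 1000 * a n).trans_le h.init
  rw [le_div_iff₀ hX]
  have h1 := h.ng 0
  have e : Rn 0 = 302 / 10000 := by simp [Rn]
  rw [e, add_zero] at h1
  have h2 : Real.exp (-(302 / 10000) * lam)
      = Real.exp (-(301 / 10000) * lam) * Real.exp (-(1 / 10000) * lam) := by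
    rw [← Real.exp_add]; congr 1; ring
  have h3 : Real.exp (-(1 / 10000) * lam) ≤ 1 / 10 ^ 20 := q.exp_small (by norm_num)
  have h4 := q.C_lo n
  have h5 := q.Cp n
  have h6 : Real.exp (-(302 / 10000) * lam) ≤ C n * (1 / 10 ^ 20) := by
    rw [h2]
    have := Real.exp_pos (-(301 / 10000) * lam)
    gcongr
  have h7 : a n * Real.exp (-(302 / 10000) * lam) ≤ C n / 8 * x n (σ n) := by
    calc a n * Real.exp (-(302 / 10000) * lam) ≤ a n * (C n * (1 / 10 ^ 20)) := by gcongr
      _ ≤ C n / 8 * (995 / 1000 * a n) := by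
          have : 0 < a n * C n := by positivity
          nlinarith
      _ ≤ _ := by have := h.init; gcongr
  linarith

/-- the bootstrap hypotheses hold at the beginning of the stage -/
lemma hy0 (g : Gd κ lam N L C ℓ B T x w f) (h : Stg κ lam L T x w n σ a)
    (hc : Cur κ lam L T x w n σ a t1) : Hy κ lam C x w n a (σ n) := by
  have q := g.q
  have ha := apos h n le_rfl
  have hr := g.hr0 h
  have hC := q.Cp n
  have hI : σ n ∈ Ico 0 T := ⟨σnn h le_rfl, h.σT⟩
  have hρ1 : 74 / 100 * C n ≤ rt C x n (σ n) := by unfold rt; linarith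
  obtain ⟨hρ0, hρ2, he0, he1, he2⟩ := th_bounds q hρ1 (g.rtb h hc ⟨le_rfl, hc.lt⟩)
  have hl := q.lamp
  have hlb := q.lam_big
  refine ⟨by linarith, ?_, ?_⟩
  · have h1 := h.tl 1
    have e1 : Rp 1 = 557 / 10000 := by simp [Rp]; norm_num
    rw [e1] at h1
    have e : Rr 0 = 25 / 1000 := by simp [Rr]
    have h2 : a n * Real.exp (-(557 / 10000) * lam) ≤ bb lam C x a n 0 (σ n) := by
      unfold bb
      rw [e, mul_assoc]
      have h3 : Real.exp (-(557 / 10000) * lam)
          ≤ Real.exp (-(25 / 1000) * lam) * Real.exp (-(30402 / 1000000) * lam) := by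
        rw [← Real.exp_add]
        apply Real.exp_le_exp.2
        nlinarith
      calc a n * Real.exp (-(557 / 10000) * lam)
          ≤ a n * (Real.exp (-(25 / 1000) * lam) * Real.exp (-(30402 / 1000000) * lam)) := by
            gcongr
        _ ≤ _ := by gcongr
    have h3 : 0 < bb lam C x a n 0 (σ n) := by unfold bb; positivity
    have h4 : √(Yk κ x w (n + 2) (σ n)) ≤ a n * Real.exp (-(557 / 10000) * lam) := h1
    linarith
  · have h1 : √(Wk κ w (n + 1) (σ n)) ≤ 2 * (dlt lam * a n) := by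
      refine g.W_geo hI (n + 1) (fun j => ?_)
      have h2 := h.tw j
      have h3 := Rp_half q j
      have h4 := dlt_pos lam
      calc w (n + 1 + j) (σ n) ≤ dlt lam * (a n * Real.exp (-(Rp j) * lam)) := h2
        _ ≤ dlt lam * (a n * (1 / 2) ^ j) := by gcongr
        _ = _ := by ring
    have h2 : dlt lam ≤ dl1 lam * C n * (1 / 10 ^ 20) := by
      have h3 : Real.exp (-(1 / 20) * lam) ≤ 1 / 10 ^ 20 := q.exp_small (by norm_num)
      have h4 := q.C_lo n
      have h5 : dlt lam ≤ Real.exp (-(2 / 5) * lam) * Real.exp (-(301 / 10000) * lam)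
          * Real.exp (-(1 / 20) * lam) := by
        rw [dlt, ← Real.exp_add, ← Real.exp_add]
        apply Real.exp_le_exp.2
        nlinarith
      refine h5.trans ?_
      rw [← dl1]
      have := dl1_pos lam
      have := Real.exp_pos (-(301 / 10000) * lam)
      gcongr
    have h3 : 0 < dl1 lam * a n * rt C x n (σ n) := by
      have := dl1_pos lam
      positivity
    have h4 : 2 * (dlt lam * a n) ≤ 1 * (dl1 lam * a n * rt C x n (σ n)) := by
      have hd := dl1_pos lam
      calc 2 * (dlt lam * a n) ≤ 2 * ((dl1 lam * C n * (1 / 10 ^ 20)) * a n) := by gcongr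
        _ = (2 / 10 ^ 20) * (dl1 lam * a n * C n) := by ring
        _ ≤ (74 / 100) * (dl1 lam * a n * C n) := by
            have hc0 : 0 ≤ dl1 lam * a n * C n := by positivity
            nlinarith
        _ = 1 * (dl1 lam * a n * (74 / 100 * C n)) := by ring
        _ ≤ _ := by gcongr
    linarith

lemma rcont (g : Gd κ lam N L C ℓ B T x w f) (h : Stg κ lam L T x w n σ a)
    (hc : Cur κ lam L T x w n σ a t1) :
    ContinuousOn (fun τ => x (n + 1) τ / x n τ) (Ico (σ n) t1) := by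
  have hsub : Ico (σ n) t1 ⊆ Ico 0 T := fun τ hτ => memI h hc hτ
  exact ((g.cont (n + 1)).mono hsub).div ((g.cont n).mono hsub)
    fun τ hτ => (Xpos h hc hτ).ne'

/-- the bootstrap hypotheses are an open condition -/
lemma hyopen (g : Gd κ lam N L C ℓ B T x w f) (h : Stg κ lam L T x w n σ a)
    (hc : Cur κ lam L T x w n σ a t1) (ht : t ∈ Ico (σ n) t1) (hy : Hy κ lam C x w n a t) :
    ∀ᶠ τ in 𝓝[Ico (σ n) t1] t, Hy κ lam C x w n a τ := by
  have q := g.q
  have hsub : Ico (σ n) t1 ⊆ Ico 0 T := fun τ hτ => memI h hc hτ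
  have hC := q.Cp n
  have hrc := g.rcont h hc t ht
  have hρ0 : 0 < rt C x n t := by
    have := hy.r
    unfold rt
    linarith
  have hρc : ContinuousWithinAt (fun τ => rt C x n τ) (Ico (σ n) t1) t :=
    hrc.add continuousWithinAt_const
  have hthc : ContinuousWithinAt (fun τ => th lam C x n τ) (Ico (σ n) t1) t := by
    unfold th
    refine ContinuousWithinAt.add ?_ ?_
    · exact continuousWithinAt_const.mul ((hρc.log hρ0.ne').add continuousWithinAt_const)
    · exact continuousWithinAt_const.mul hρc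
  have hbc : ContinuousWithinAt (fun τ => 2 * bb lam C x a n 0 τ) (Ico (σ n) t1) t := by
    unfold bb
    exact continuousWithinAt_const.mul (continuousWithinAt_const.mul hthc.rexp)
  have hYc : ContinuousWithinAt (fun τ => √(Yk κ x w (n + 2) τ)) (Ico (σ n) t1) t :=
    (((g.Ycont (n + 2)).mono hsub) t ht).sqrt
  have hWc : ContinuousWithinAt (fun τ => √(Wk κ w (n + 1) τ)) (Ico (σ n) t1) t :=
    (((g.Wcont (n + 1)).mono hsub) t ht).sqrt
  have e1 : ∀ᶠ τ in 𝓝[Ico (σ n) t1] t, -(C n / 4) < x (n + 1) τ / x n τ :=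
    (tendsto_const_nhds).eventually_lt hrc hy.r
  have e2 : ∀ᶠ τ in 𝓝[Ico (σ n) t1] t, √(Yk κ x w (n + 2) τ) < 2 * bb lam C x a n 0 τ :=
    hYc.eventually_lt hbc hy.Y
  have e3 : ∀ᶠ τ in 𝓝[Ico (σ n) t1] t, √(Wk κ w (n + 1) τ) < 200 * dl1 lam * a n * rt C x n τ :=
    hWc.eventually_lt (continuousWithinAt_const.mul hρc) hy.W
  filter_upwards [e1, e2, e3] with τ h1 h2 h3
  exact ⟨h1, h2, h3⟩

end Gd

theorem t_CLOSE : S_CLOSE := by
  intro hB1 hB2 hR κ lam N L C ℓ B T x w f n σ a t1 g h hc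
  have q := g.q
  have ha := Gd.apos h n le_rfl
  have hr0 := g.hr0 h
  have hC := q.Cp n
  have hd := dl1_pos lam
  have hdt := dlt_pos lam
  have hl := q.lamp
  have hbh : ∀ t ∈ Ioo (σ n) t1, (∀ τ ∈ Ico (σ n) t, Hy κ lam C x w n a τ) →
      BH κ lam N L C ℓ B T x w f n σ a t1 t := fun t ht hy => by
    obtain ⟨h1, h2, _, _⟩ := hR κ lam N L C ℓ B T x w f n σ a t1 t g h hc ht hy hr0
    exact ⟨g, h, hc, ht, hy, h2, h1⟩
  have hall : ∀ t ∈ Ico (σ n) t1, Hy κ lam C x w n a t := by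
    refine real_ind (g.hy0 h hc) (fun t ht hy => g.hyopen h hc ht hy) (fun t ht hy => ?_)
    have bh := hbh t ht hy
    obtain ⟨hw1, hj⟩ := hB1 κ lam N L C ℓ B T x w f n σ a t1 t bh t ⟨ht.1.le, le_rfl⟩
    have hρ1 : 74 / 100 * C n ≤ rt C x n t := by
      have := bh.hr
      unfold rt; linarith
    have hρ2 := g.rtb h hc (t := t) ⟨ht.1.le, ht.2⟩
    have hb0 := b0_of q ha hρ1 hρ2
    have hρ0 : 0 < rt C x n t := by linarith
    have hI := Gd.memI h hc (t := t) ⟨ht.1.le, ht.2⟩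
    have hbp : 0 < bb lam C x a n 0 t := by unfold bb; positivity
    refine ⟨by linarith [bh.hr], ?_, ?_⟩
    · have h1 : √(Yk κ x w (n + 2) t) ≤ bb lam C x a n 0 t := (hj 0).1
      linarith
    · have h1 : √(Wk κ w (n + 2) t) ≤ 2 * (dlt lam * bb lam C x a n 0 t) := by
        refine g.W_geo hI (n + 2) (fun j => ?_)
        calc w (n + 2 + j) t ≤ dlt lam * bb lam C x a n j t := (hj j).2
          _ ≤ dlt lam * (bb lam C x a n 0 t * (1 / 2) ^ j) := by
              have := bb_half q (x := x) (t := t) ha j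
              gcongr
          _ = _ := by ring
      have hw0 := g.sy.w0 (n + 1) t hI
      have h2 : √(Wk κ w (n + 1) t) ≤ w (n + 1) t + √(Wk κ w (n + 2) t) := sqrtW_succ g hI (n + 1)
      have h3 : dlt lam ≤ dl1 lam := by
        apply Real.exp_le_exp.2
        linarith
      have h4 : 2 * (dlt lam * bb lam C x a n 0 t) ≤ 2 * (dl1 lam * (a n * rt C x n t)) := by
        gcongr
      have h5 : 0 < dl1 lam * (a n * rt C x n t) := by positivity
      have e1 : 100 * dl1 lam * a n * rt C x n t = 100 * (dl1 lam * (a n * rt C x n t)) := by ring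
      have e2 : 200 * dl1 lam * a n * rt C x n t = 200 * (dl1 lam * (a n * rt C x n t)) := by ring
      rw [e2]
      rw [e1] at hw1
      linarith
  intro t ht
  have hy : ∀ τ ∈ Ico (σ n) t, Hy κ lam C x w n a τ := fun τ hτ => hall τ ⟨hτ.1, hτ.2.trans ht.2⟩
  have bh := hbh t ht hy
  obtain ⟨_, hr8, hX, htime⟩ := hR κ lam N L C ℓ B T x w f n σ a t1 t g h hc ht hy hr0
  have hb1 := hB1 κ lam N L C ℓ B T x w f n σ a t1 t bh
  have hb2 := hB2 κ lam N L C ℓ B T x w f n σ a t1 t bh hb1 t ⟨ht.1.le, le_rfl⟩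
  obtain ⟨hw1, hj⟩ := hb1 t ⟨ht.1.le, le_rfl⟩
  have hρ1 : 74 / 100 * C n ≤ rt C x n t := by unfold rt; linarith
  obtain ⟨hρ0, hρ2, he0, he1, he2⟩ := th_bounds q hρ1 (g.rtb h hc (t := t) ⟨ht.1.le, ht.2⟩)
  have hbb : ∀ j : ℕ, bb lam C x a n j t
      ≤ a n * Real.exp (-(Rr j - 102 / 10000) * lam) := fun j => by
    have e : Real.exp (-(Rr j - 102 / 10000) * lam)
        = Real.exp (-(Rr j) * lam) * Real.exp (102 / 10000 * lam) := by
      rw [← Real.exp_add]; congr 1; ring
    unfold bb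
    rw [e, ← mul_assoc]
    gcongr
  refine ⟨hX, htime, hr8, ?_, fun j => (hj j).1.trans (hbb j), fun j => ?_, fun j => ?_⟩
  · calc w (n + 1) t ≤ 100 * dl1 lam * a n * rt C x n t := hw1
      _ ≤ 100 * dl1 lam * a n * (101 / 10000) := by gcongr
      _ = (101 / 100) * (dl1 lam * a n) := by ring
      _ ≤ (11 / 10) * (dl1 lam * a n) := by
          have hc0 : 0 ≤ dl1 lam * a n := by positivity
          nlinarith
      _ = _ := by ring
  · exact (hj j).2.trans (by have := hbb j; gcongr)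
  · have h1 := hb2 j
    have h2 : nb lam C x a n j t ≤ a n * Real.exp (-(Rm j - 102 / 10000) * lam) := by
      have e : Real.exp (-(Rm j - 102 / 10000) * lam)
          = Real.exp (-(Rm j) * lam) * Real.exp (102 / 10000 * lam) := by
        rw [← Real.exp_add]; congr 1; ring
      unfold nb
      rw [e, ← mul_assoc]
      gcongr
    linarith

end Pool.Agent.Y5.F
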