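import Pool.Agent.Y37.NE.ABS2
import Pool.Agent.Y421.NF.EST4
import Pool.Agent.Y691.NS.PERT4
import Pool.Agent.Y108.NS.Resc
import Pool.Agent.Y417.NF.SEQ4
import Pool.Agent.Y809.NS.ONB4
import Pool.Agent.Y993.NF.P3
import Pool.Agent.Y288.NS.Blow4
import Pool.Agent.Y363.NF.IND
import Pool.Agent.Y504.NF.BAR1
import Pool.Agent.Y278.NF.BAR2
import Pool.Agent.Y155.NE.TAB2
import Pool.Agent.Y5.F.Q10

set_option autoImplicit false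

namespace Pool.Agent.Y5.F

theorem t_CURC : S_CURC := t_CLOSE Pool.Agent.Y504.NF.t_BAR1 Pool.Agent.Y278.NF.t_BAR2 t_RAT

theorem t_ODE5 : S_ODE5 := t_IND t_CURC

theorem t_BLOW4 : S_BLOW4 :=
  Pool.Agent.Y288.NS.t_BLOWA4 Pool.Agent.Y37.NE.t_ABS2 Pool.Agent.Y421.NF.t_EST4
    Pool.Agent.Y691.NS.t_PERT4 Pool.Agent.Y108.NS.t_RESC t_ODE5

theorem t_CONC4 : S_CONC4 :=
  Pool.Agent.Y809.NS.t_ONB4 Pool.Agent.Y155.NE.t_TAB2 Pool.Agent.Y417.NF.t_SEQ4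

theorem t_MAIN4 : S_MAIN4 :=
  Pool.Agent.Y993.NF.t_PHYS4 Pool.Agent.Y274.NE.t_FLD2 t_BLOW4 t_CONC4

end Pool.Agent.Y5.F
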