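import Pool.Agent.Y5.F.Stm
import Pool.Agent.Y5.D.P3

/-! Basic facts on the reduced system. -/

open Set Filter Topology MeasureTheory

set_option autoImplicit false

namespace Pool.Agent.Y5.F

open Pool.Agent.Y5.E (At Aw Ut Uw loc)

/-- a quantity which is larger than all polynomial quantities -/
noncomputable def EE (lam : ℝ) : ℝ := Real.exp (lam / 10 ^ 7)

/-- Assumptions. -/
structure Gd (κ lam N : ℝ) (L C ℓ : ℕ → ℝ) (B : ℕ → ℕ → ℝ) (T : ℝ) (x w f : ℕ → ℝ → ℝ) :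
    Prop where
  q : Pk κ lam N L C ℓ B
  hT : 0 < T
  sy : SysK κ lam N L C ℓ B T x w f

lemma EE_pos (lam : ℝ) : 0 < EE lam := Real.exp_pos _

namespace Pk

variable {κ lam N : ℝ} {L C ℓ : ℕ → ℝ} {B : ℕ → ℕ → ℝ}

lemma lamp (q : Pk κ lam N L C ℓ B) : 0 < lam := lt_of_lt_of_le (by norm_num) q.lam_big

lemma lam1 (q : Pk κ lam N L C ℓ B) : 1 ≤ lam := le_trans (by norm_num) q.lam_big

lemma NE (q : Pk κ lam N L C ℓ B) : N ≤ EE lam := q.N_le

lemma κsq (q : Pk κ lam N L C ℓ B) : κ ^ 2 ≤ 1 := pow_le_one₀ q.κ0.le q.κ1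

lemma κk (q : Pk κ lam N L C ℓ B) (k : ℕ) : κ ^ k ≤ 1 := pow_le_one₀ q.κ0.le q.κ1

lemma κk0 (q : Pk κ lam N L C ℓ B) (k : ℕ) : 0 < κ ^ k := pow_pos q.κ0 k

lemma L1 (q : Pk κ lam N L C ℓ B) (n : ℕ) : 1 ≤ L n := by
  induction n with
  | zero => exact q.L0
  | succ n ih =>
    rw [q.L_succ n]
    have := q.lam1
    nlinarith

lemma Lp (q : Pk κ lam N L C ℓ B) (n : ℕ) : 0 < L n := lt_of_lt_of_le one_pos (q.L1 n)

lemma Lk (q : Pk κ lam N L C ℓ B) (n k : ℕ) : L (n + k) = lam ^ k * L n := by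
  induction k with
  | zero => simp
  | succ k ih => rw [← add_assoc, q.L_succ, ih]; ring

lemma Lpow (q : Pk κ lam N L C ℓ B) (n : ℕ) : lam ^ n ≤ L n := by
  have h := q.Lk 0 n
  rw [zero_add] at h
  rw [h]
  have := q.L0
  have h2 : 0 < lam ^ n := pow_pos q.lamp n
  nlinarith

lemma Lpow' (q : Pk κ lam N L C ℓ B) (n : ℕ) : (10 ^ 30) ^ n ≤ L n := by
  refine le_trans ?_ (q.Lpow n)
  have := q.lam_big
  gcongr

lemma Lmono (q : Pk κ lam N L C ℓ B) : Monotone L := by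
  refine monotone_nat_of_le_succ fun n => ?_
  rw [q.L_succ n]
  have := q.lam1
  have := q.Lp n
  nlinarith

lemma Linv (q : Pk κ lam N L C ℓ B) (n : ℕ) : (L n)⁻¹ ≤ (1 / 2) ^ n := by
  have h := q.Lpow' n
  have h2 : (2 : ℝ) ^ n ≤ (10 ^ 30) ^ n := by gcongr; norm_num
  rw [one_div, inv_pow]
  exact inv_anti₀ (by positivity) (h2.trans h)

lemma Cp (q : Pk κ lam N L C ℓ B) (n : ℕ) : 0 < C n := (Real.exp_pos _).trans_le (q.C_lo n)

lemma sq_lam (q : Pk κ lam N L C ℓ B) : (√lam)⁻¹ ≤ 1 / 10 ^ 15 := by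
  have h := q.lam_big
  have h1 : (10 : ℝ) ^ 15 ≤ √lam := by
    rw [show (10 : ℝ) ^ 15 = √((10 ^ 15) ^ 2) by rw [Real.sqrt_sq (by norm_num)]]
    exact Real.sqrt_le_sqrt (by norm_num; linarith)
  rw [inv_eq_one_div]
  exact one_div_le_one_div_of_le (by norm_num) h1

lemma sq_lam0 (q : Pk κ lam N L C ℓ B) : 0 < (√lam)⁻¹ := by
  have := q.lamp
  positivity

lemma EE_lam (q : Pk κ lam N L C ℓ B) : 10 ^ 15 * lam ≤ EE lam := by
  have h := q.lam_big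
  have h1 : (lam / 10 ^ 7) ^ 2 / 2 ≤ Real.exp (lam / 10 ^ 7) :=
    Real.quadratic_le_exp_of_nonneg (by positivity) |>.trans' (by
      have : (0 : ℝ) ≤ lam / 10 ^ 7 := by positivity
      linarith)
  refine le_trans ?_ h1
  have h2 : 10 ^ 30 * lam ≤ lam ^ 2 := by nlinarith [q.lamp]
  have e : (lam / 10 ^ 7) ^ 2 / 2 = lam ^ 2 / (2 * 10 ^ 14) := by ring
  rw [e, le_div_iff₀ (by positivity)]
  have h3 := q.lamp
  nlinarith

lemma EE_big (q : Pk κ lam N L C ℓ B) : 10 ^ 45 ≤ EE lam := by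
  have h := q.lam_big
  have := q.EE_lam
  linarith

lemma EE_one (q : Pk κ lam N L C ℓ B) : 1 ≤ EE lam := by
  have := q.EE_big
  linarith

lemma EE_exp (q : Pk κ lam N L C ℓ B) (k : ℕ) {α β : ℝ} (h : (k : ℝ) / 10 ^ 7 + α ≤ β) :
    EE lam ^ k * Real.exp (α * lam) ≤ Real.exp (β * lam) := by
  rw [EE, ← Real.exp_nat_mul, ← Real.exp_add]
  apply Real.exp_le_exp.2
  have := q.lamp
  calc (k : ℝ) * (lam / 10 ^ 7) + α * lam = ((k : ℝ) / 10 ^ 7 + α) * lam := by ring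
    _ ≤ β * lam := by gcongr

lemma exp_small (q : Pk κ lam N L C ℓ B) {β : ℝ} (hβ : β ≤ -(1 / 10 ^ 6)) :
    Real.exp (β * lam) ≤ 1 / 10 ^ 20 := by
  have h := q.lam_big
  have h1 : Real.exp (β * lam) ≤ Real.exp (-(10 ^ 24)) := by
    apply Real.exp_le_exp.2
    nlinarith
  refine h1.trans ?_
  rw [Real.exp_neg, ← one_div]
  apply one_div_le_one_div_of_le (by positivity)
  linarith [Real.add_one_le_exp ((10 : ℝ) ^ 24)]

/-- `E ^ k * exp (α lam)` is tiny -/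
lemma EE_small (q : Pk κ lam N L C ℓ B) (k : ℕ) {α : ℝ} (h : (k : ℝ) / 10 ^ 7 + α ≤ -(1 / 10 ^ 6)) :
    EE lam ^ k * Real.exp (α * lam) ≤ 1 / 10 ^ 20 :=
  (q.EE_exp k h).trans (q.exp_small le_rfl)

lemma C_small (q : Pk κ lam N L C ℓ B) (n : ℕ) : C n ≤ 1 / 10 ^ 20 :=
  (q.C_hi n).trans (q.exp_small (by norm_num))

lemma ℓ_le (q : Pk κ lam N L C ℓ B) (n : ℕ) : ℓ n ≤ L n := by
  rcases n with _ | n
  · have h := q.ℓ_zero
    have h1 := q.ℓ_nonneg 0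
    have h2 := q.lam1
    have h3 : ℓ 0 * 1 ≤ ℓ 0 * lam := by gcongr
    nlinarith [mul_nonneg h1 q.lamp.le]
  · have h := q.ℓ_succ n
    have h1 := q.Lp n
    have h2 := q.Lmono (show n ≤ n + 1 by omega)
    have h3 : ((9 : ℝ) / 1000) ^ n ≤ 1 := pow_le_one₀ (by norm_num) (by norm_num)
    have h4 : L n * (9 / 1000) ^ n ≤ L n * 1 := by gcongr
    have h5 := q.ℓ_nonneg (n + 1)
    nlinarith

end Pk

namespace Gd

variable {κ lam N : ℝ} {L C ℓ : ℕ → ℝ} {B : ℕ → ℕ → ℝ} {T : ℝ} {x w f : ℕ → ℝ → ℝ}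

lemma cont (g : Gd κ lam N L C ℓ B T x w f) (n : ℕ) : ContinuousOn (x n) (Ico 0 T) :=
  fun t ht => (g.sy.dx n t ht).continuousWithinAt

lemma wsq_cont (g : Gd κ lam N L C ℓ B T x w f) (n : ℕ) :
    ContinuousOn (fun τ => w n τ ^ 2) (Ico 0 T) :=
  fun t ht => (g.sy.dw n t ht).choose_spec.1.continuousWithinAt

lemma wcont (g : Gd κ lam N L C ℓ B T x w f) (n : ℕ) : ContinuousOn (w n) (Ico 0 T) := by
  have h := (g.wsq_cont n).sqrt
  refine h.congr fun t ht => ?_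
  show w n t = √(w n t ^ 2)
  rw [Real.sqrt_sq (g.sy.w0 n t ht)]

lemma derivAt (g : Gd κ lam N L C ℓ B T x w f) (n : ℕ) {t : ℝ} (ht : t ∈ Ioo 0 T) :
    HasDerivAt (x n) (vfk κ L C ℓ B (fun m => x m t) n + f n t) t :=
  (g.sy.dx n t ⟨ht.1.le, ht.2⟩).hasDerivAt (Ico_mem_nhds ht.1 ht.2)

/-- pointwise bound -/
lemma bd (g : Gd κ lam N L C ℓ B T x w f) {T' : ℝ} (hT' : T' < T) :
    ∃ K, 1 ≤ K ∧ ∀ t ∈ Icc 0 T', ∀ n, |x n t| ≤ K * (L n ^ 10)⁻¹ ∧ w n t ≤ K * (L n ^ 10)⁻¹ := by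
  obtain ⟨Mx, h⟩ := g.sy.bdd T' hT'
  refine ⟨max Mx 1, le_max_right _ _, fun t ht n => ?_⟩
  have hp : 0 < L n ^ 10 := pow_pos (g.q.Lp n) _
  have h1 := h t ht n
  have hw := g.sy.w0 n t ⟨ht.1, ht.2.trans_lt hT'⟩
  have hx := abs_nonneg (x n t)
  constructor
  · rw [← div_eq_mul_inv, le_div_iff₀ hp, mul_comm]
    refine le_trans ?_ (h1.trans (le_max_left _ _))
    have : |x n t| ≤ |x n t| + w n t := by linarith
    gcongr
  · rw [← div_eq_mul_inv, le_div_iff₀ hp, mul_comm]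
    refine le_trans ?_ (h1.trans (le_max_left _ _))
    have : w n t ≤ |x n t| + w n t := by linarith
    gcongr

lemma inv_sum (q : Pk κ lam N L C ℓ B) (m j : ℕ) :
    ((L (m + j) ^ 10)⁻¹) ^ 2 ≤ (1 / 2 : ℝ) ^ j := by
  have h6 := q.Linv (m + j)
  have hL1 := q.L1 (m + j)
  have hLp := q.Lp (m + j)
  have h7 : ((L (m + j) ^ 10)⁻¹) ^ 2 = ((L (m + j))⁻¹) ^ 20 := by
    rw [← inv_pow, ← pow_mul]
  rw [h7]
  have h8 : (L (m + j))⁻¹ ≤ 1 := inv_le_one_of_one_le₀ hL1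
  calc ((L (m + j))⁻¹) ^ 20 ≤ ((L (m + j))⁻¹) ^ 1 :=
        pow_le_pow_of_le_one (by positivity) h8 (by norm_num)
    _ ≤ (1 / 2) ^ (m + j) := by rw [pow_one]; exact h6
    _ ≤ (1 / 2) ^ j := pow_le_pow_of_le_one (by norm_num) (by norm_num) (by omega)

lemma geo (K : ℝ) : Summable fun j : ℕ => K ^ 2 * (1 / 2 : ℝ) ^ j :=
  (summable_geometric_of_lt_one (by norm_num) (by norm_num)).mul_left _

lemma summx (g : Gd κ lam N L C ℓ B T x w f) {t : ℝ} (ht : t ∈ Ico 0 T) (m : ℕ) :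
    Summable fun j : ℕ => x (m + j) t ^ 2 := by
  obtain ⟨K, _, hK⟩ := g.bd ht.2
  refine Summable.of_nonneg_of_le (fun j => sq_nonneg _) (fun j => ?_) (geo K)
  have h3 := (hK t ⟨ht.1, le_rfl⟩ (m + j)).1
  have h4 : |x (m + j) t| ^ 2 ≤ (K * (L (m + j) ^ 10)⁻¹) ^ 2 := by gcongr
  rw [sq_abs] at h4
  refine h4.trans ?_
  rw [mul_pow]
  have := inv_sum g.q m j
  gcongr

lemma summw (g : Gd κ lam N L C ℓ B T x w f) {t : ℝ} (ht : t ∈ Ico 0 T) (m : ℕ) :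
    Summable fun j : ℕ => w (m + j) t ^ 2 := by
  obtain ⟨K, _, hK⟩ := g.bd ht.2
  refine Summable.of_nonneg_of_le (fun j => sq_nonneg _) (fun j => ?_) (geo K)
  have h3 := (hK t ⟨ht.1, le_rfl⟩ (m + j)).2
  have h0 := g.sy.w0 (m + j) t ht
  have h4 : w (m + j) t ^ 2 ≤ (K * (L (m + j) ^ 10)⁻¹) ^ 2 := by gcongr
  refine h4.trans ?_
  rw [mul_pow]
  have := inv_sum g.q m j
  gcongr

lemma summkx (g : Gd κ lam N L C ℓ B T x w f) {t : ℝ} (ht : t ∈ Ico 0 T) (m : ℕ) :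
    Summable fun j : ℕ => κ ^ (2 * j) * x (m + j) t ^ 2 := by
  refine Summable.of_nonneg_of_le
    (fun j => mul_nonneg (g.q.κk0 _).le (sq_nonneg _)) (fun j => ?_) (g.summx ht m)
  exact mul_le_of_le_one_left (sq_nonneg _) (g.q.κk _)

lemma summkw (g : Gd κ lam N L C ℓ B T x w f) {t : ℝ} (ht : t ∈ Ico 0 T) (m : ℕ) :
    Summable fun j : ℕ => κ ^ (2 * j) * w (m + j) t ^ 2 := by
  refine Summable.of_nonneg_of_le
    (fun j => mul_nonneg (g.q.κk0 _).le (sq_nonneg _)) (fun j => ?_) (g.summw ht m)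
  exact mul_le_of_le_one_left (sq_nonneg _) (g.q.κk _)

lemma summ (g : Gd κ lam N L C ℓ B T x w f) {t : ℝ} (ht : t ∈ Ico 0 T) (m : ℕ) :
    Summable fun j : ℕ => κ ^ (2 * j) * (x (m + j) t ^ 2 + w (m + j) t ^ 2) :=
  ((g.summkx ht m).add (g.summkw ht m)).congr fun j => by ring

lemma Y_nonneg (g : Gd κ lam N L C ℓ B T x w f) (m : ℕ) (t : ℝ) : 0 ≤ Yk κ x w m t :=
  tsum_nonneg fun _ => mul_nonneg (g.q.κk0 _).le (add_nonneg (sq_nonneg _) (sq_nonneg _))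

lemma W_nonneg (g : Gd κ lam N L C ℓ B T x w f) (m : ℕ) (t : ℝ) : 0 ≤ Wk κ w m t :=
  tsum_nonneg fun _ => mul_nonneg (g.q.κk0 _).le (sq_nonneg _)

lemma Y_succ (g : Gd κ lam N L C ℓ B T x w f) {t : ℝ} (ht : t ∈ Ico 0 T) (m : ℕ) :
    Yk κ x w m t = x m t ^ 2 + w m t ^ 2 + κ ^ 2 * Yk κ x w (m + 1) t := by
  rw [Yk, (g.summ ht m).tsum_eq_zero_add]
  congr 1
  · simp
  rw [Yk, ← tsum_mul_left]
  congr 1; ext j
  rw [show m + (j + 1) = m + 1 + j by ring]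
  ring

lemma W_succ (g : Gd κ lam N L C ℓ B T x w f) {t : ℝ} (ht : t ∈ Ico 0 T) (m : ℕ) :
    Wk κ w m t = w m t ^ 2 + κ ^ 2 * Wk κ w (m + 1) t := by
  rw [Wk, (g.summkw ht m).tsum_eq_zero_add]
  congr 1
  · simp
  rw [Wk, ← tsum_mul_left]
  congr 1; ext j
  rw [show m + (j + 1) = m + 1 + j by ring]
  ring

/-- upper bound without `κ` -/
lemma Y_succ_le (g : Gd κ lam N L C ℓ B T x w f) {t : ℝ} (ht : t ∈ Ico 0 T) (m : ℕ) :
    Yk κ x w m t ≤ x m t ^ 2 + w m t ^ 2 + Yk κ x w (m + 1) t := by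
  rw [g.Y_succ ht]
  have := mul_le_of_le_one_left (g.Y_nonneg (m + 1) t) g.q.κsq
  linarith

lemma W_succ_le (g : Gd κ lam N L C ℓ B T x w f) {t : ℝ} (ht : t ∈ Ico 0 T) (m : ℕ) :
    Wk κ w m t ≤ w m t ^ 2 + Wk κ w (m + 1) t := by
  rw [g.W_succ ht]
  have := mul_le_of_le_one_left (g.W_nonneg (m + 1) t) g.q.κsq
  linarith

lemma W_le_Y (g : Gd κ lam N L C ℓ B T x w f) {t : ℝ} (ht : t ∈ Ico 0 T) (m : ℕ) :
    Wk κ w m t ≤ Yk κ x w m t := by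
  refine (g.summkw ht m).tsum_le_tsum (fun j => ?_) (g.summ ht m)
  have := (g.q.κk0 (2 * j)).le
  have := sq_nonneg (x (m + j) t)
  gcongr
  linarith

lemma both_le (g : Gd κ lam N L C ℓ B T x w f) {t : ℝ} (ht : t ∈ Ico 0 T) (m : ℕ) :
    x m t ^ 2 + w m t ^ 2 ≤ Yk κ x w m t := by
  rw [g.Y_succ ht]
  have := mul_nonneg (g.q.κk0 2).le (g.Y_nonneg (m + 1) t)
  linarith

lemma x_le (g : Gd κ lam N L C ℓ B T x w f) {t : ℝ} (ht : t ∈ Ico 0 T) (m : ℕ) :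
    |x m t| ≤ √(Yk κ x w m t) :=
  Real.abs_le_sqrt (by have := g.both_le ht m; nlinarith [sq_nonneg (w m t)])

lemma w_le (g : Gd κ lam N L C ℓ B T x w f) {t : ℝ} (ht : t ∈ Ico 0 T) (m : ℕ) :
    w m t ≤ √(Yk κ x w m t) :=
  (le_abs_self _).trans
    (Real.abs_le_sqrt (by have := g.both_le ht m; nlinarith [sq_nonneg (x m t)]))

lemma Ycont (g : Gd κ lam N L C ℓ B T x w f) (m : ℕ) : ContinuousOn (Yk κ x w m) (Ico 0 T) := by
  rcases m with _ | m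
  · exact fun t ht => (g.sy.dY0 t ht).choose_spec.1.continuousWithinAt
  · exact fun t ht => (g.sy.dY m t ht).choose_spec.1.continuousWithinAt

lemma Wcont (g : Gd κ lam N L C ℓ B T x w f) (m : ℕ) : ContinuousOn (Wk κ w m) (Ico 0 T) := by
  intro t ht
  obtain ⟨T', hT1, hT2⟩ := exists_between ht.2
  obtain ⟨K, _, hK⟩ := g.bd hT2
  have h1 : ContinuousOn (Wk κ w m) (Ico 0 T') := by
    have := continuousOn_tsum (f := fun (j : ℕ) τ => κ ^ (2 * j) * w (m + j) τ ^ 2)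
      (s := Ico 0 T')
      (u := fun j : ℕ => K ^ 2 * (1 / 2 : ℝ) ^ j)
      (fun j => ((g.wsq_cont (m + j)).mono fun τ hτ => ⟨hτ.1, hτ.2.trans hT2⟩).const_mul _)
      (geo K)
      (fun j τ hτ => by
        have h3 := (hK τ ⟨hτ.1, hτ.2.le⟩ (m + j)).2
        have h0 := g.sy.w0 (m + j) τ ⟨hτ.1, hτ.2.trans hT2⟩
        have hκ := g.q.κk (2 * j)
        have hκ0 := (g.q.κk0 (2 * j)).le
        rw [Real.norm_eq_abs, abs_of_nonneg (mul_nonneg hκ0 (sq_nonneg _))]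
        refine (mul_le_of_le_one_left (sq_nonneg _) hκ).trans ?_
        have h4 : w (m + j) τ ^ 2 ≤ (K * (L (m + j) ^ 10)⁻¹) ^ 2 := by gcongr
        refine h4.trans ?_
        rw [mul_pow]
        have := inv_sum g.q m j
        gcongr)
    exact this
  have h2 := h1 t ⟨ht.1, hT1⟩
  refine h2.mono_of_mem_nhdsWithin ?_
  rw [mem_nhdsWithin]
  exact ⟨Iio T', isOpen_Iio, hT1, fun τ hτ => ⟨hτ.2.1, hτ.1⟩⟩

/-- weighted tails -/
lemma tsB (g : Gd κ lam N L C ℓ B T x w f) {t : ℝ} (ht : t ∈ Ico 0 T) {i m : ℕ} (him : i < m) :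
    Summable (fun j : ℕ => B i (m + j) * (κ ^ (2 * (j + 1)) * x (m + j) t ^ 2)) ∧
    0 ≤ ∑' j : ℕ, B i (m + j) * (κ ^ (2 * (j + 1)) * x (m + j) t ^ 2) ∧
    ∑' j : ℕ, B i (m + j) * (κ ^ (2 * (j + 1)) * x (m + j) t ^ 2)
      ≤ 1001 / 1000 * Yk κ x w m t := by
  have hS := g.summkx ht m
  have hlo : ∀ j, 999 / 1000 ≤ B i (m + j) := fun j => g.q.B_lo i (m + j) (by omega)
  have hhi : ∀ j, B i (m + j) ≤ 1001 / 1000 := fun j => g.q.B_hi i (m + j) (by omega)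
  have hk : ∀ j, κ ^ (2 * (j + 1)) * x (m + j) t ^ 2 ≤ κ ^ (2 * j) * x (m + j) t ^ 2 := by
    intro j
    have e : κ ^ (2 * (j + 1)) = κ ^ 2 * κ ^ (2 * j) := by ring
    rw [e, mul_assoc]
    exact mul_le_of_le_one_left (mul_nonneg (g.q.κk0 _).le (sq_nonneg _)) g.q.κsq
  have hk0 : ∀ j, 0 ≤ κ ^ (2 * (j + 1)) * x (m + j) t ^ 2 := fun j =>
    mul_nonneg (g.q.κk0 _).le (sq_nonneg _)
  have h1 : Summable (fun j : ℕ => B i (m + j) * (κ ^ (2 * (j + 1)) * x (m + j) t ^ 2)) := by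
    refine Summable.of_norm_bounded (hS.mul_left (1001 / 1000)) fun j => ?_
    rw [Real.norm_eq_abs, abs_mul, abs_of_nonneg (hk0 j),
      abs_of_nonneg (by linarith [hlo j])]
    have := hhi j
    have := hk j
    have := hk0 j
    gcongr
  refine ⟨h1, tsum_nonneg fun j => mul_nonneg (by linarith [hlo j]) (hk0 j), ?_⟩
  rw [Yk, ← tsum_mul_left]
  refine h1.tsum_le_tsum (fun j => ?_) ((g.summ ht m).mul_left _)
  have h2 := hhi j
  have h3 := hk j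
  have h4 := hk0 j
  have h5 : 0 ≤ κ ^ (2 * j) * w (m + j) t ^ 2 := mul_nonneg (g.q.κk0 _).le (sq_nonneg _)
  have h6 : B i (m + j) * (κ ^ (2 * (j + 1)) * x (m + j) t ^ 2)
      ≤ 1001 / 1000 * (κ ^ (2 * j) * x (m + j) t ^ 2) := by gcongr
  linarith

lemma U_nonneg (q : Pk κ lam N L C ℓ B) (m : ℕ) (t : ℝ) : 0 ≤ Ut L x m t :=
  Finset.sum_nonneg fun i _ => mul_nonneg (q.Lp i).le (abs_nonneg _)

lemma U_succ (m : ℕ) (t : ℝ) : Ut L x (m + 1) t = Ut L x m t + L m * |x m t| := by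
  rw [Ut, Finset.sum_range_succ, ← Ut]

lemma Uw_nonneg (g : Gd κ lam N L C ℓ B T x w f) {t : ℝ} (ht : t ∈ Ico 0 T) (m : ℕ) :
    0 ≤ Uw L w m t :=
  Finset.sum_nonneg fun i _ => mul_nonneg (g.q.Lp i).le (g.sy.w0 i t ht)

lemma Uw_succ (m : ℕ) (t : ℝ) : Uw L w (m + 1) t = Uw L w m t + L m * w m t := by
  rw [Uw, Finset.sum_range_succ, ← Uw]

lemma gsum_succ (ρ : ℝ) (v : ℕ → ℝ) (m : ℕ) :
    ∑ p ∈ Finset.range (m + 1), ρ ^ (m + 1 - 1 - p) * v p =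
      ρ * ∑ p ∈ Finset.range m, ρ ^ (m - 1 - p) * v p + v m := by
  rw [Finset.sum_range_succ, Finset.mul_sum]
  congr 1
  · refine Finset.sum_congr rfl fun p hp => ?_
    have hp' := Finset.mem_range.1 hp
    have e : m + 1 - 1 - p = (m - 1 - p) + 1 := by omega
    rw [e, pow_succ]; ring
  · simp

lemma A_succ (m : ℕ) (t : ℝ) :
    At lam x w (m + 1) t = (√lam)⁻¹ * At lam x w m t + (|x m t| + w m t) := by
  rw [At, gsum_succ (√lam)⁻¹ (fun p => |x p t| + w p t) m, ← At]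

lemma Aw_succ (m : ℕ) (t : ℝ) :
    Aw lam w (m + 1) t = (√lam)⁻¹ * Aw lam w m t + w m t := by
  rw [Aw, gsum_succ (√lam)⁻¹ (fun p => w p t) m, ← Aw]

lemma A_nonneg (g : Gd κ lam N L C ℓ B T x w f) {t : ℝ} (ht : t ∈ Ico 0 T) (m : ℕ) :
    0 ≤ At lam x w m t :=
  Finset.sum_nonneg fun i _ => by
    have := g.sy.w0 i t ht
    have := g.q.sq_lam0
    positivity

lemma Aw_nonneg (g : Gd κ lam N L C ℓ B T x w f) {t : ℝ} (ht : t ∈ Ico 0 T) (m : ℕ) :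
    0 ≤ Aw lam w m t :=
  Finset.sum_nonneg fun i _ => by
    have := g.sy.w0 i t ht
    have := g.q.sq_lam0
    positivity

lemma loc_nonneg (g : Gd κ lam N L C ℓ B T x w f) {t : ℝ} (ht : t ∈ Ico 0 T) (m : ℕ) :
    0 ≤ loc L x w m t := by
  unfold loc
  split_ifs
  · exact le_rfl
  · have := g.sy.w0 (m - 1) t ht
    have := g.sy.w0 (m - 2) t ht
    have := g.q.Lp (m - 1)
    positivity

/-- strain sum -/
lemma strain (q : Pk κ lam N L C ℓ B) {m k : ℕ} (hmk : m ≤ k) (t : ℝ) :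
    |∑ i ∈ Finset.range m, L i * B i k * x i t| ≤ 1001 / 1000 * Ut L x m t := by
  refine (Finset.abs_sum_le_sum_abs _ _).trans ?_
  rw [Ut, Finset.mul_sum]
  refine Finset.sum_le_sum fun i hi => ?_
  have hi' : i < k := by have := Finset.mem_range.1 hi; omega
  have hLp := q.Lp i
  rw [abs_mul, abs_mul, abs_of_pos hLp,
    abs_of_nonneg (by linarith [q.B_lo i k hi'] : 0 ≤ B i k)]
  have := q.B_hi i k hi'
  have h2 : L i * B i k * |x i t| ≤ L i * (1001 / 1000) * |x i t| := by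
    gcongr
  linarith

/-- source -/
noncomputable def src (L C : ℕ → ℝ) (x : ℕ → ℝ → ℝ) (m : ℕ) (t : ℝ) : ℝ :=
  if m = 0 then 0 else L (m - 1) * C (m - 1) * x (m - 1) t ^ 2

lemma src_nonneg (q : Pk κ lam N L C ℓ B) (m : ℕ) (t : ℝ) : 0 ≤ src L C x m t := by
  unfold src
  split_ifs
  · exact le_rfl
  · have := q.Lp (m - 1)
    have := q.Cp (m - 1)
    positivity

/-- common estimates of the terms of the vector field -/
lemma vf_terms (g : Gd κ lam N L C ℓ B T x w f) {t : ℝ} (ht : t ∈ Ico 0 T) (m : ℕ) :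
    |x m t * ∑ i ∈ Finset.range m, L i * B i m * x i t| ≤ 1001 / 1000 * Ut L x m t * |x m t| ∧
    0 ≤ L m * ∑' k : ℕ, B m (m + 1 + k) * (κ ^ (2 * (k + 1)) * x (m + 1 + k) t ^ 2) ∧
    L m * ∑' k : ℕ, B m (m + 1 + k) * (κ ^ (2 * (k + 1)) * x (m + 1 + k) t ^ 2)
      ≤ 1001 / 1000 * L m * Yk κ x w (m + 1) t ∧
    |κ ^ 2 * (L m * C m * x m t * x (m + 1) t)| ≤ C m * L m * |x (m + 1) t| * |x m t| := by
  have q := g.q
  have hL := q.Lp m
  have hC := q.Cp m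
  have h1 := g.tsB ht (i := m) (m := m + 1) (by omega)
  have h2 := strain (x := x) q (le_refl m) t
  refine ⟨?_, mul_nonneg hL.le h1.2.1, ?_, ?_⟩
  · rw [abs_mul, mul_comm]; gcongr
  · calc _ ≤ L m * (1001 / 1000 * Yk κ x w (m + 1) t) := by gcongr; exact h1.2.2
      _ = _ := by ring
  · rw [abs_mul, abs_of_pos (q.κk0 2)]
    refine (mul_le_of_le_one_left (abs_nonneg _) q.κsq).trans ?_
    rw [abs_mul, abs_mul, abs_mul, abs_of_pos hL, abs_of_pos hC]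
    apply le_of_eq; ring

/-- lower bound for the vector field -/
lemma vf_ge (g : Gd κ lam N L C ℓ B T x w f) {t : ℝ} (ht : t ∈ Ico 0 T) (m : ℕ) :
    src L C x m t - (ℓ m + C m * L m * |x (m + 1) t|
        + 1001 / 1000 * Ut L x m t) * |x m t| - 1001 / 1000 * L m * Yk κ x w (m + 1) t
        - |f m t|
      ≤ vfk κ L C ℓ B (fun k => x k t) m + f m t := by
  obtain ⟨h1, h2, h3, h4⟩ := g.vf_terms ht m
  have h5 : ℓ m * x m t ≤ ℓ m * |x m t| := by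
    have := g.q.ℓ_nonneg m
    gcongr
    exact le_abs_self _
  have h6 := neg_abs_le (f m t)
  have h7 := neg_le_of_abs_le h1
  have h8 := le_of_abs_le h4
  unfold vfk src
  simp only
  linarith

/-- lower bound for the vector field at a negative mode -/
lemma vf_ge_neg (g : Gd κ lam N L C ℓ B T x w f) {t : ℝ} (ht : t ∈ Ico 0 T) (m : ℕ)
    (hx : x m t ≤ 0) :
    -((C m * L m * |x (m + 1) t|
        + 1001 / 1000 * Ut L x m t) * |x m t|) - 1001 / 1000 * L m * Yk κ x w (m + 1) t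
        - |f m t|
      ≤ vfk κ L C ℓ B (fun k => x k t) m + f m t := by
  obtain ⟨h1, h2, h3, h4⟩ := g.vf_terms ht m
  have h5 : ℓ m * x m t ≤ 0 := mul_nonpos_of_nonneg_of_nonpos (g.q.ℓ_nonneg m) hx
  have h6 := neg_abs_le (f m t)
  have h7 := neg_le_of_abs_le h1
  have h8 := le_of_abs_le h4
  have h9 := src_nonneg (x := x) g.q m t
  unfold vfk
  unfold src at h9
  simp only
  linarith

/-- upper bound for the vector field at a positive mode -/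
lemma vf_le (g : Gd κ lam N L C ℓ B T x w f) {t : ℝ} (ht : t ∈ Ico 0 T) (m : ℕ) (h0 : 0 ≤ x m t) :
    vfk κ L C ℓ B (fun k => x k t) m + f m t ≤
      src L C x m t + (C m * L m * |x (m + 1) t| + 1001 / 1000 * Ut L x m t) * x m t
        + |f m t| := by
  obtain ⟨h1, h2, h3, h4⟩ := g.vf_terms ht m
  have h5 : 0 ≤ ℓ m * x m t := mul_nonneg (g.q.ℓ_nonneg m) h0
  have h6 := le_abs_self (f m t)
  have h7 := le_of_abs_le h1
  have h8 := neg_le_of_abs_le h4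
  rw [abs_of_nonneg h0] at h7 h8
  unfold vfk src
  simp only
  linarith

/-- additional term -/
noncomputable def addt (lam N : ℝ) (L : ℕ → ℝ) (x w : ℕ → ℝ → ℝ) (m : ℕ) (t : ℝ) : ℝ :=
  if m = 0 then 0 else N / Real.exp lam *
    (L (m - 1) * At lam x w m t ^ 2 * (|x (m - 1) t| + w (m - 1) t) ^ 2)

lemma N_exp (q : Pk κ lam N L C ℓ B) : N / Real.exp lam ≤ 1 / 10 ^ 20 := by
  have h1 := q.NE
  have h2 := q.EE_big
  have h3 := EE_pos lam
  have h4 := q.EE_exp 2 (α := 0) (β := 1) (by norm_num)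
  rw [zero_mul, Real.exp_zero, mul_one, one_mul] at h4
  rw [div_le_div_iff₀ (Real.exp_pos _) (by norm_num)]
  have h5 : N ≤ EE lam := h1
  calc N * 10 ^ 20 ≤ EE lam * EE lam := by gcongr; linarith
    _ = EE lam ^ 2 := by ring
    _ ≤ _ := by linarith

/-- derivative of the tail energies, all indices -/
lemma dYu (g : Gd κ lam N L C ℓ B T x w f) (m : ℕ) {t : ℝ} (ht : t ∈ Ico 0 T)
    (hU : Ut L x m t ≤ 10 ^ 6 * L m) :
    ∃ D, HasDerivWithinAt (Yk κ x w m) D (Ico 0 T) t ∧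
      D ≤ 2 * (src L C x m t + N * loc L x w m t) * √(Yk κ x w m t)
        + 2 * (10011 / 10000 * Ut L x m t + N * Uw L w m t) * Yk κ x w m t
        + addt lam N L x w m t := by
  rcases m with _ | m
  · obtain ⟨D, h1, h2⟩ := g.sy.dY0 t ht
    refine ⟨D, h1, h2.trans ?_⟩
    simp [src, loc, Ut, Uw, addt]
  · obtain ⟨D, h1, h2⟩ := g.sy.dY m t ht
    refine ⟨D, h1, h2.trans ?_⟩
    have hn1 : ¬ (m + 1 = 0) := Nat.succ_ne_zero m
    unfold src addt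
    rw [if_neg hn1, if_neg hn1, Nat.add_sub_cancel]
    have hY := g.Y_nonneg (m + 1) t
    have hU0 := U_nonneg (x := x) g.q (m + 1) t
    have hL := g.q.Lp (m + 1)
    have hN := N_exp g.q
    have h3 : Ut L x (m + 1) t ^ 2 / L (m + 1) ≤ 10 ^ 6 * Ut L x (m + 1) t := by
      rw [div_le_iff₀ hL]
      calc Ut L x (m + 1) t ^ 2 = Ut L x (m + 1) t * Ut L x (m + 1) t := by ring
        _ ≤ Ut L x (m + 1) t * (10 ^ 6 * L (m + 1)) := by gcongr
        _ = _ := by ring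
    have h4 : N / Real.exp lam * (Ut L x (m + 1) t ^ 2 / L (m + 1))
        ≤ 1 / 10 ^ 20 * (10 ^ 6 * Ut L x (m + 1) t) := by
      gcongr
    have h5 : 1001 / 1000 * Ut L x (m + 1) t + N * Uw L w (m + 1) t
        + N / Real.exp lam * (Ut L x (m + 1) t ^ 2 / L (m + 1))
        ≤ 10011 / 10000 * Ut L x (m + 1) t + N * Uw L w (m + 1) t := by
      linarith
    have h6 := mul_le_mul_of_nonneg_right h5 hY
    nlinarith [h6]

end Gd

end Pool.Agent.Y5.F
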