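import Pool.Agent.Y5.F.Q2

/-! Stages: a priori bounds. -/

open Set Filter Topology MeasureTheory

set_option autoImplicit false

namespace Pool.Agent.Y5.F

open Pool.Agent.Y5.E (At Aw Ut Uw loc)

noncomputable def dl1 (lam : ℝ) : ℝ := Real.exp (-(2 / 5) * lam)
noncomputable def dlt (lam : ℝ) : ℝ := Real.exp (-(1 / 2) * lam)
noncomputable def Rp (j : ℕ) : ℝ := 147 / 10000 + 41 / 1000 * j
noncomputable def Rr (j : ℕ) : ℝ := 25 / 1000 + 41 / 1000 * j
noncomputable def Rn (j : ℕ) : ℝ := 302 / 10000 + 408 / 10000 * j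

lemma dl1_pos (lam : ℝ) : 0 < dl1 lam := Real.exp_pos _
lemma dlt_pos (lam : ℝ) : 0 < dlt lam := Real.exp_pos _

/-- The state at the beginning of the stage `n`. -/
structure Stg (κ lam : ℝ) (L : ℕ → ℝ) (T : ℝ) (x w : ℕ → ℝ → ℝ) (n : ℕ) (σ a : ℕ → ℝ) :
    Prop where
  σ0 : σ 0 = 0
  a0 : a 0 = 1
  σlt : ∀ i < n, σ i < σ (i + 1)
  σT : σ n < T
  dur : ∀ i < n, σ (i + 1) - σ i ≤ 32 / 1000 * lam / (L i * a i)
  agrow : ∀ i < n, 9 / 1000 * a i ≤ a (i + 1)
  adec : ∀ i < n, a (i + 1) ≤ a i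
  cross : ∀ i < n, x i (σ (i + 1)) = 100 * a (i + 1)
  aY : ∀ i ≤ n, √(Yk κ x w i (σ i)) = a i
  wi : ∀ i ≤ n, w i (σ i) ≤ 200 * dl1 lam * a i
  init : 995 / 1000 * a n ≤ x n (σ n)
  tl : ∀ j : ℕ, √(Yk κ x w (n + 1 + j) (σ n)) ≤ a n * Real.exp (-(Rp j) * lam)
  ng : ∀ j : ℕ, -(a n * Real.exp (-(Rn j) * lam)) ≤ x (n + 1 + j) (σ n)
  tw : ∀ j : ℕ, w (n + 1 + j) (σ n) ≤ dlt lam * (a n * Real.exp (-(Rp j) * lam))

/-- The current stage on `[σ n, t1)`. -/
structure Cur (κ lam : ℝ) (L : ℕ → ℝ) (T : ℝ) (x w : ℕ → ℝ → ℝ) (n : ℕ) (σ a : ℕ → ℝ)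
    (t1 : ℝ) : Prop where
  lt : σ n < t1
  leT : t1 ≤ T
  le : t1 ≤ σ n + 32 / 1000 * lam / (L n * a n)
  act : ∀ t ∈ Ico (σ n) t1, Yk κ x w (n + 1) t < (1 / 100 * x n t) ^ 2 ∧ 9 / 10 * a n < x n t

/-- bounds of the quantities of the lower groups -/
structure Low (lam : ℝ) (L : ℕ → ℝ) (x w : ℕ → ℝ → ℝ) (a : ℕ → ℝ) (i : ℕ) (t : ℝ) : Prop where
  U : Ut L x i t ≤ 1012 / 10 * (L i * a i / lam)
  Uw : Uw L w i t ≤ 10 ^ 5 * dl1 lam * (L i * a i / lam)
  A : At lam x w i t ≤ 103 * a i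
  Aw : Aw lam w i t ≤ 10 ^ 5 * dl1 lam * a i
  lc : loc L x w i t ≤ 10 ^ 11 * dl1 lam * (L i * a i / lam) * a i
  z : i ≠ 0 → |x (i - 1) t| + w (i - 1) t ≤ 102 * a i
  wz : i ≠ 0 → w (i - 1) t ≤ 10 ^ 5 * dl1 lam * a i

section seq

variable {κ lam N : ℝ} {L C ℓ : ℕ → ℝ} {B : ℕ → ℕ → ℝ}

lemma pow_L (q : Pk κ lam N L C ℓ B) (n : ℕ) : 1 ≤ (9 / 1000) ^ n * L n := by
  have h := q.Lpow' n
  calc (1 : ℝ) ≤ (9 / 1000 * 10 ^ 30) ^ n := one_le_pow₀ (by norm_num)
    _ = (9 / 1000) ^ n * (10 ^ 30) ^ n := mul_pow _ _ _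
    _ ≤ _ := by gcongr

/-- `E ^ k * dl1` is tiny -/
lemma dl1_small (q : Pk κ lam N L C ℓ B) (k : ℕ) (hk : k ≤ 100) :
    EE lam ^ k * dl1 lam ≤ 1 / 10 ^ 20 := by
  have hk' : (k : ℝ) ≤ 100 := by exact_mod_cast hk
  exact q.EE_small k (by linarith)

/-- constants and `N` times `dl1` is tiny -/
lemma N_dl1 (q : Pk κ lam N L C ℓ B) : 10 ^ 20 * N * dl1 lam ≤ 1 / 10 ^ 20 := by
  have h1 := dl1_small q 2 (by norm_num)
  have h2 := q.NE
  have h3 := q.EE_big
  have h4 := EE_pos lam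
  have h5 := dl1_pos lam
  have h6 := q.N_one
  calc 10 ^ 20 * N * dl1 lam ≤ EE lam * EE lam * dl1 lam := by gcongr; linarith
    _ = EE lam ^ 2 * dl1 lam := by ring
    _ ≤ _ := h1

lemma dl1_small1 (q : Pk κ lam N L C ℓ B) : 10 ^ 20 * dl1 lam ≤ 1 / 10 ^ 20 := by
  have h1 := N_dl1 q
  have h2 := q.N_one
  have h3 := dl1_pos lam
  nlinarith

end seq

namespace Gd

variable {κ lam N : ℝ} {L C ℓ : ℕ → ℝ} {B : ℕ → ℕ → ℝ} {T : ℝ} {x w f : ℕ → ℝ → ℝ}
variable {n : ℕ} {σ a : ℕ → ℝ} {t1 : ℝ}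

lemma alow (h : Stg κ lam L T x w n σ a) : ∀ i ≤ n, (9 / 1000) ^ i ≤ a i := by
  intro i
  induction i with
  | zero => intro _; rw [h.a0]; simp
  | succ i ih =>
    intro hi
    have h1 := ih (by omega)
    have h2 := h.agrow i (by omega)
    calc (9 / 1000 : ℝ) ^ (i + 1) = 9 / 1000 * (9 / 1000) ^ i := by ring
      _ ≤ 9 / 1000 * a i := by gcongr
      _ ≤ _ := h2

lemma apos (h : Stg κ lam L T x w n σ a) (i : ℕ) (hi : i ≤ n) : 0 < a i :=
  lt_of_lt_of_le (by positivity) (alow h i hi)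

lemma σmono (h : Stg κ lam L T x w n σ a) {i j : ℕ} (hij : i ≤ j) (hj : j ≤ n) : σ i ≤ σ j := by
  induction j with
  | zero => have : i = 0 := by omega
            rw [this]
  | succ j ih =>
    rcases hij.eq_or_lt with h1 | h1
    · rw [h1]
    · exact (ih (by omega) (by omega)).trans (h.σlt j (by omega)).le

lemma σnn (h : Stg κ lam L T x w n σ a) {i : ℕ} (hi : i ≤ n) : 0 ≤ σ i := by
  have := σmono h (Nat.zero_le i) hi
  rwa [h.σ0] at this

lemma ale (h : Stg κ lam L T x w n σ a) (i : ℕ) (hi : i ≤ n) : a i ≤ 1 := by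
  induction i with
  | zero => rw [h.a0]
  | succ i ih => exact (h.adec i (by omega)).trans (ih (by omega))

lemma Gpos (g : Gd κ lam N L C ℓ B T x w f) (h : Stg κ lam L T x w n σ a) (i : ℕ) (hi : i ≤ n) :
    0 < L i * a i := mul_pos (g.q.Lp i) (apos h i hi)

lemma G1 (g : Gd κ lam N L C ℓ B T x w f) (h : Stg κ lam L T x w n σ a) (i : ℕ) (hi : i ≤ n) :
    1 ≤ L i * a i := by
  have h1 := pow_L g.q i
  have h2 := alow h i hi
  have h3 := g.q.Lp i
  calc (1 : ℝ) ≤ (9 / 1000) ^ i * L i := h1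
    _ ≤ a i * L i := by gcongr
    _ = _ := mul_comm _ _

lemma Gstep (g : Gd κ lam N L C ℓ B T x w f) (h : Stg κ lam L T x w n σ a) {i : ℕ} (hi : i < n) :
    lam * (9 / 1000) * (L i * a i) ≤ L (i + 1) * a (i + 1) := by
  have h1 := h.agrow i hi
  have h2 := g.q.Lp i
  have h3 := g.q.lamp
  rw [g.q.L_succ i]
  calc lam * (9 / 1000) * (L i * a i) = lam * L i * (9 / 1000 * a i) := by ring
    _ ≤ _ := by gcongr

lemma astep (h : Stg κ lam L T x w n σ a) {i : ℕ} (hi : i < n) : a i ≤ 1000 / 9 * a (i + 1) := by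
  have := h.agrow i hi
  linarith

lemma Gsum (g : Gd κ lam N L C ℓ B T x w f) (h : Stg κ lam L T x w n σ a) : ∀ i ≤ n,
    ∑ j ∈ Finset.range i, L j * a (j + 1) ≤ 1001 / 1000 * (L i * a i / lam) := by
  intro i
  have hl := g.q.lamp
  have hlb := g.q.lam_big
  induction i with
  | zero => intro h0; have := g.Gpos h 0 h0; simp; positivity
  | succ i ih =>
    intro hi
    rw [Finset.sum_range_succ]
    have h1 := ih (by omega)
    have h2 := g.Gstep h (i := i) (by omega)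
    have h4 := g.Gpos h i (by omega)
    have h5 := g.Gpos h (i + 1) hi
    have h6 : L i * a (i + 1) = L (i + 1) * a (i + 1) / lam := by
      rw [g.q.L_succ i]; field_simp
    rw [h6]
    have h7 : L i * a i / lam ≤ 1 / 10 ^ 6 * (L (i + 1) * a (i + 1) / lam) := by
      rw [← mul_div_assoc]
      apply div_le_div_of_nonneg_right _ hl.le
      nlinarith
    have h8 : 0 < L (i + 1) * a (i + 1) / lam := by positivity
    linarith

lemma Asum (g : Gd κ lam N L C ℓ B T x w f) (h : Stg κ lam L T x w n σ a) : ∀ i ≤ n,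
    ∑ p ∈ Finset.range i, (√lam)⁻¹ ^ (i - 1 - p) * a (p + 1) ≤ 1001 / 1000 * a i := by
  intro i
  have hs := g.q.sq_lam
  have hs0 := g.q.sq_lam0
  induction i with
  | zero => intro h0; have := apos h 0 h0; simp; positivity
  | succ i ih =>
    intro hi
    rw [gsum_succ (√lam)⁻¹ (fun p => a (p + 1)) i]
    have h1 := ih (by omega)
    have h2 := astep h (i := i) (by omega)
    have h3 := apos h (i + 1) hi
    have h4 := apos h i (by omega)
    have h5 : (√lam)⁻¹ * ∑ p ∈ Finset.range i, (√lam)⁻¹ ^ (i - 1 - p) * a (p + 1)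
        ≤ 1 / 10 ^ 15 * (1001 / 1000 * (1000 / 9 * a (i + 1))) := by
      refine mul_le_mul hs (h1.trans ?_) ?_ (by norm_num)
      · linarith
      · refine Finset.sum_nonneg fun p hp => ?_
        have hp' := Finset.mem_range.1 hp
        have := apos h (p + 1) (by omega)
        positivity
    linarith

/-- bounds of the lower groups -/
lemma low_of (g : Gd κ lam N L C ℓ B T x w f) (h : Stg κ lam L T x w n σ a) {i : ℕ} (hi : i ≤ n)
    {t : ℝ} (ht : t ∈ Ico 0 T) (hx : ∀ j < i, |x j t| ≤ 101 * a (j + 1))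
    (hw : ∀ j < i, w j t ≤ 200 * dl1 lam * a j) : Low lam L x w a i t := by
  have q := g.q
  have hd := dl1_pos lam
  have hds := dl1_small1 q
  have hl := q.lamp
  have hs0 := q.sq_lam0
  have hai := apos h i hi
  have hLi := q.Lp i
  have hw' : ∀ j < i, w j t ≤ 23000 * dl1 lam * a (j + 1) := fun j hj => by
    have h1 := hw j hj
    have h2 := astep h (i := j) (by omega)
    have h3 := apos h (j + 1) (by omega)
    calc w j t ≤ 200 * dl1 lam * a j := h1
      _ ≤ 200 * dl1 lam * (1000 / 9 * a (j + 1)) := by gcongr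
      _ = (200000 / 9) * (dl1 lam * a (j + 1)) := by ring
      _ ≤ 23000 * (dl1 lam * a (j + 1)) := by gcongr; norm_num
      _ = _ := by ring
  have hz : ∀ j < i, |x j t| + w j t ≤ 102 * a (j + 1) := fun j hj => by
    have h1 := hx j hj
    have h2 := hw' j hj
    have h3 := apos h (j + 1) (by omega)
    have h4 : 23000 * dl1 lam * a (j + 1) ≤ 1 * a (j + 1) := by
      gcongr; linarith
    linarith
  have hsum := g.Gsum h i hi
  have hAs := g.Asum h i hi
  set G := L i * a i / lam with hG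
  have hGp : 0 < G := by positivity
  refine ⟨?_, ?_, ?_, ?_, ?_, ?_, ?_⟩
  · calc Ut L x i t ≤ ∑ j ∈ Finset.range i, 101 * (L j * a (j + 1)) := by
          refine Finset.sum_le_sum fun j hj => ?_
          have h1 := hx j (Finset.mem_range.1 hj)
          have hLp := q.Lp j
          calc L j * |x j t| ≤ L j * (101 * a (j + 1)) := by gcongr
            _ = _ := by ring
      _ = 101 * ∑ j ∈ Finset.range i, L j * a (j + 1) := by rw [Finset.mul_sum]
      _ ≤ 101 * (1001 / 1000 * G) := by gcongr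
      _ ≤ _ := by linarith
  · calc Uw L w i t ≤ ∑ j ∈ Finset.range i, 23000 * dl1 lam * (L j * a (j + 1)) := by
          refine Finset.sum_le_sum fun j hj => ?_
          have h1 := hw' j (Finset.mem_range.1 hj)
          have hLp := q.Lp j
          calc L j * w j t ≤ L j * (23000 * dl1 lam * a (j + 1)) := by gcongr
            _ = _ := by ring
      _ = 23000 * dl1 lam * ∑ j ∈ Finset.range i, L j * a (j + 1) := by rw [Finset.mul_sum]
      _ ≤ 23000 * dl1 lam * (1001 / 1000 * G) := by gcongr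
      _ = (23000 * (1001 / 1000)) * (dl1 lam * G) := by ring
      _ ≤ 10 ^ 5 * (dl1 lam * G) := by gcongr; norm_num
      _ = _ := by ring
  · calc At lam x w i t ≤ ∑ p ∈ Finset.range i, 102 * ((√lam)⁻¹ ^ (i - 1 - p) * a (p + 1)) := by
          refine Finset.sum_le_sum fun j hj => ?_
          have h1 := hz j (Finset.mem_range.1 hj)
          calc (√lam)⁻¹ ^ (i - 1 - j) * (|x j t| + w j t)
              ≤ (√lam)⁻¹ ^ (i - 1 - j) * (102 * a (j + 1)) := by gcongr
            _ = _ := by ring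
      _ = 102 * ∑ p ∈ Finset.range i, (√lam)⁻¹ ^ (i - 1 - p) * a (p + 1) := by
          rw [Finset.mul_sum]
      _ ≤ 102 * (1001 / 1000 * a i) := by gcongr
      _ ≤ _ := by linarith
  · calc Aw lam w i t
        ≤ ∑ p ∈ Finset.range i, 23000 * dl1 lam * ((√lam)⁻¹ ^ (i - 1 - p) * a (p + 1)) := by
          refine Finset.sum_le_sum fun j hj => ?_
          have h1 := hw' j (Finset.mem_range.1 hj)
          calc (√lam)⁻¹ ^ (i - 1 - j) * w j t
              ≤ (√lam)⁻¹ ^ (i - 1 - j) * (23000 * dl1 lam * a (j + 1)) := by gcongr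
            _ = _ := by ring
      _ = 23000 * dl1 lam * ∑ p ∈ Finset.range i, (√lam)⁻¹ ^ (i - 1 - p) * a (p + 1) := by
          rw [Finset.mul_sum]
      _ ≤ 23000 * dl1 lam * (1001 / 1000 * a i) := by gcongr
      _ = (23000 * (1001 / 1000)) * (dl1 lam * a i) := by ring
      _ ≤ 10 ^ 5 * (dl1 lam * a i) := by gcongr; norm_num
      _ = _ := by ring
  · rcases i with _ | m
    · rw [loc, if_pos rfl]; positivity
    · have hm : ¬ (m + 1 = 0) := Nat.succ_ne_zero m
      rw [loc, if_neg hm, Nat.add_sub_cancel]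
      have hz1 := hz m (by omega)
      have hw1 := hw' m (by omega)
      have hw0 := g.sy.w0 m t ht
      have hz2 : |x (m + 1 - 2) t| + w (m + 1 - 2) t ≤ 11400 * a (m + 1) := by
        rcases m with _ | m
        · simp only [Nat.zero_add, Nat.reduceSubDiff] at *
          linarith
        · have e : m + 1 + 1 - 2 = m := by omega
          rw [e]
          have h1 := hz m (by omega)
          have h2 := astep h (i := m + 1) (by omega)
          linarith
      have hw2 : w (m + 1 - 2) t ≤ 2600000 * dl1 lam * a (m + 1) := by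
        rcases m with _ | m
        · simp only [Nat.zero_add, Nat.reduceSubDiff] at *
          have : 0 < dl1 lam * a 1 := by positivity
          linarith
        · have e : m + 1 + 1 - 2 = m := by omega
          rw [e]
          have h1 := hw' m (by omega)
          have h2 := astep h (i := m + 1) (by omega)
          have h3 : 23000 * dl1 lam * a (m + 1)
              ≤ 23000 * dl1 lam * (1000 / 9 * a (m + 1 + 1)) := by gcongr
          have : 0 < dl1 lam * a (m + 1 + 1) := by positivity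
          linarith
      have hw0' := g.sy.w0 (m + 1 - 2) t ht
      have e : L m * a (m + 1) = G := by
        rw [hG, q.L_succ m]; field_simp
      have hLm := q.Lp m
      have hs1 : |x m t| + w m t + |x (m + 1 - 2) t| + w (m + 1 - 2) t ≤ 11502 * a (m + 1) := by
        linarith
      have hs2 : w m t + w (m + 1 - 2) t ≤ 2623000 * dl1 lam * a (m + 1) := by linarith
      calc L m * ((|x m t| + w m t + |x (m + 1 - 2) t| + w (m + 1 - 2) t)
              * (w m t + w (m + 1 - 2) t))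
          ≤ L m * ((11502 * a (m + 1)) * (2623000 * dl1 lam * a (m + 1))) := by
            gcongr
        _ = (11502 * 2623000) * (dl1 lam * (L m * a (m + 1)) * a (m + 1)) := by ring
        _ ≤ 10 ^ 11 * (dl1 lam * (L m * a (m + 1)) * a (m + 1)) := by
            gcongr; norm_num
        _ = _ := by rw [e]; ring
  · intro h0
    have := hz (i - 1) (by omega)
    rwa [Nat.sub_add_cancel (by omega)] at this
  · intro h0
    have := hw' (i - 1) (by omega)
    rw [Nat.sub_add_cancel (by omega)] at this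
    refine this.trans ?_
    gcongr
    norm_num

/-- elapsed time -/
lemma el (g : Gd κ lam N L C ℓ B T x w f) (h : Stg κ lam L T x w n σ a) {t1 : ℝ}
    (h1 : t1 ≤ σ n + 32 / 1000 * lam / (L n * a n)) :
    ∀ k i, i + k = n → t1 - σ i ≤ 324 / 10000 * lam / (L i * a i) := by
  have hl := g.q.lamp
  have hlb := g.q.lam_big
  intro k
  induction k with
  | zero =>
    intro i hi
    have : i = n := by omega
    subst this
    have hG := g.Gpos h i le_rfl
    have : 32 / 1000 * lam / (L i * a i) ≤ 324 / 10000 * lam / (L i * a i) := by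
      refine div_le_div_of_nonneg_right ?_ hG.le
      linarith
    linarith
  | succ k ih =>
    intro i hi
    have h2 := ih (i + 1) (by omega)
    have h3 := h.dur i (by omega)
    have hG := g.Gpos h i (by omega)
    have hG' := g.Gpos h (i + 1) (by omega)
    have h4 := g.Gstep h (i := i) (by omega)
    have h6 : 324 / 10000 * lam / (L (i + 1) * a (i + 1))
        ≤ 4 / 10000 * lam / (L i * a i) := by
      rw [div_le_div_iff₀ hG' hG]
      calc 324 / 10000 * lam * (L i * a i)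
          = (324 / 90) * (lam * (9 / 1000) * (L i * a i)) := by ring
        _ ≤ (324 / 90) * (L (i + 1) * a (i + 1)) := by gcongr
        _ ≤ (4 / 10000 * lam) * (L (i + 1) * a (i + 1)) := by gcongr; linarith
    have h8 : 32 / 1000 * lam / (L i * a i) + 4 / 10000 * lam / (L i * a i)
        = 324 / 10000 * lam / (L i * a i) := by ring
    linarith

lemma el' (g : Gd κ lam N L C ℓ B T x w f) (h : Stg κ lam L T x w n σ a) {t1 : ℝ}
    (h1 : t1 ≤ σ n + 32 / 1000 * lam / (L n * a n)) {i : ℕ} (hi : i ≤ n) :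
    (t1 - σ i) * (L i * a i) ≤ 324 / 10000 * lam := by
  have := g.el h h1 (n - i) i (by omega)
  rwa [le_div_iff₀ (g.Gpos h i hi)] at this

/-- total time -/
lemma tot (g : Gd κ lam N L C ℓ B T x w f) (h : Stg κ lam L T x w n σ a) {t1 : ℝ}
    (h1 : t1 ≤ σ n + 32 / 1000 * lam / (L n * a n)) : t1 ≤ 324 / 10000 * lam := by
  have h2 := g.el' h h1 (Nat.zero_le n)
  rw [h.σ0, h.a0, sub_zero, mul_one] at h2
  have h3 := g.q.L1 0
  rcases le_or_gt t1 0 with h4 | h4
  · have := g.q.lamp; linarith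
  · nlinarith

/-- damping of the main modes -/
lemma vis (g : Gd κ lam N L C ℓ B T x w f) (h : Stg κ lam L T x w n σ a) (i : ℕ) (hi : i ≤ n) :
    ℓ i * lam ≤ 12 / 10 ^ 5 * (L i * a i) := by
  rcases i with _ | i
  · have h1 := g.q.ℓ_zero
    rw [h.a0]
    have := g.q.Lp 0
    linarith
  · have h1 := g.q.ℓ_succ i
    have h2 := alow h (i + 1) hi
    have h4 := g.q.lamp
    have h5 := g.q.Lp (i + 1)
    have h6 : ℓ (i + 1) * lam ≤ 1 / 10 ^ 6 * (L (i + 1) * (9 / 1000) ^ i) := by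
      calc ℓ (i + 1) * lam = 1 / 10 ^ 6 * (10 ^ 6 * ℓ (i + 1)) * lam := by ring
        _ ≤ 1 / 10 ^ 6 * (L i * (9 / 1000) ^ i) * lam := by gcongr
        _ = 1 / 10 ^ 6 * ((lam * L i) * (9 / 1000) ^ i) := by ring
        _ = _ := by rw [g.q.L_succ]
    have h7 : (9 / 1000 : ℝ) ^ i ≤ 1000 / 9 * a (i + 1) := by
      have e : (9 / 1000 : ℝ) ^ i = 1000 / 9 * (9 / 1000) ^ (i + 1) := by
        rw [pow_succ]; ring
      rw [e]; gcongr
    calc ℓ (i + 1) * lam ≤ 1 / 10 ^ 6 * (L (i + 1) * (9 / 1000) ^ i) := h6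
      _ ≤ 1 / 10 ^ 6 * (L (i + 1) * (1000 / 9 * a (i + 1))) := by gcongr
      _ = 1 / 9000 * (L (i + 1) * a (i + 1)) := by ring
      _ ≤ _ := mul_le_mul_of_nonneg_right (by norm_num) (g.Gpos h (i + 1) hi).le

/-- growth of a tail energy -/
lemma grow (g : Gd κ lam N L C ℓ B T x w f) (i : ℕ) {α t q c η : ℝ} (h0 : 0 ≤ α) (hαt : α ≤ t)
    (ht : t < T) (hq : 0 ≤ q) (hc : 0 ≤ c) (hη : 0 ≤ η)
    (hU : ∀ τ ∈ Ioo α t, 10011 / 10000 * Ut L x i τ + N * Uw L w i τ ≤ q)
    (hq6 : q ≤ 10 ^ 6 * L i)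
    (hx : ∀ τ ∈ Ioo α t, src L C x i τ + N * loc L x w i τ ≤ c)
    (ha : ∀ τ ∈ Ioo α t, addt lam N L x w i τ ≤ 2 * c * η) :
    √(Yk κ x w i t) ≤ Real.exp (q * (t - α)) * (√(Yk κ x w i α) + η + 2 * c * (t - α)) := by
  have hsub : Icc α t ⊆ Ico 0 T := fun τ hτ => ⟨h0.trans hτ.1, hτ.2.trans_lt ht⟩
  have hUL : ∀ τ ∈ Ioo α t, Ut L x i τ ≤ 10 ^ 6 * L i := fun τ hτ => by
    have h1 := hU τ hτ
    have h2 := g.Uw_nonneg (hsub ⟨hτ.1.le, hτ.2.le⟩) i
    have h3 := U_nonneg (x := x) g.q i τ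
    have h4 := g.q.N_one
    have h5 : 0 ≤ N * Uw L w i τ := by positivity
    linarith
  refine sqrt_gronA (Y := Yk κ x w i) (D := deriv (Yk κ x w i)) hαt hq hc hη
    ((g.Ycont i).mono hsub) (fun τ _ => g.Y_nonneg _ _)
    (fun τ hτ => ?_) (fun τ hτ => ?_)
  · have hτ' : τ ∈ Ico 0 T := hsub ⟨hτ.1.le, hτ.2.le⟩
    obtain ⟨D, hD, _⟩ := g.dYu i hτ' (hUL τ hτ)
    have h2 := hD.hasDerivAt (Ico_mem_nhds (h0.trans_lt hτ.1) (hτ.2.trans ht))
    rw [h2.deriv]; exact h2
  · have hτ' : τ ∈ Ico 0 T := hsub ⟨hτ.1.le, hτ.2.le⟩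
    obtain ⟨D, hD, hDle⟩ := g.dYu i hτ' (hUL τ hτ)
    have h2 := hD.hasDerivAt (Ico_mem_nhds (h0.trans_lt hτ.1) (hτ.2.trans ht))
    rw [h2.deriv]
    refine hDle.trans ?_
    have h3 := hU τ hτ
    have h4 := hx τ hτ
    have h5 := g.Y_nonneg i τ
    have h6 := ha τ hτ
    gcongr

end Gd

end Pool.Agent.Y5.F
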