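import Pool.Agent.Y5.F.Q4

/-! The dynamics during one stage: definitions, and the statements of the steps. -/

open Set Filter Topology MeasureTheory

set_option autoImplicit false

namespace Pool.Agent.Y5.F

open Pool.Agent.Y5.E (At Aw Ut Uw loc)

/-- the shifted ratio of the modes `n+1` and `n` -/
noncomputable def rt (C : ℕ → ℝ) (x : ℕ → ℝ → ℝ) (n : ℕ) (t : ℝ) : ℝ :=
  x (n + 1) t / x n t + 99 / 100 * C n

/-- the exponent of the barriers -/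
noncomputable def th (lam : ℝ) (C : ℕ → ℝ) (x : ℕ → ℝ → ℝ) (n : ℕ) (t : ℝ) : ℝ :=
  101 / 100 * (Real.log (rt C x n t) + Real.log 100) + 101 / 100 * lam * rt C x n t

noncomputable def Rm (j : ℕ) : ℝ := 4055 / 100000 + 408 / 10000 * j

/-- barrier for the tails `n + 2 + j` -/
noncomputable def bb (lam : ℝ) (C : ℕ → ℝ) (x : ℕ → ℝ → ℝ) (a : ℕ → ℝ) (n j : ℕ) (t : ℝ) : ℝ :=
  a n * Real.exp (-(Rr j) * lam) * Real.exp (th lam C x n t)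

/-- barrier for the negative parts of the modes `n + 2 + j` -/
noncomputable def nb (lam : ℝ) (C : ℕ → ℝ) (x : ℕ → ℝ → ℝ) (a : ℕ → ℝ) (n j : ℕ) (t : ℝ) : ℝ :=
  a n * Real.exp (-(Rm j) * lam) * Real.exp (th lam C x n t)

/-- the bootstrap hypotheses at the time `t` -/
structure Hy (κ lam : ℝ) (C : ℕ → ℝ) (x w : ℕ → ℝ → ℝ) (n : ℕ) (a : ℕ → ℝ) (t : ℝ) : Prop where
  r : -(C n / 4) < x (n + 1) t / x n t
  Y : √(Yk κ x w (n + 2) t) < 2 * bb lam C x a n 0 t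
  W : √(Wk κ w (n + 1) t) < 200 * dl1 lam * a n * rt C x n t

/-- conclusions for the current stage -/
structure CurC (κ lam : ℝ) (L C : ℕ → ℝ) (x w : ℕ → ℝ → ℝ) (n : ℕ) (σ a : ℕ → ℝ) (t : ℝ) :
    Prop where
  X : 99 / 100 * a n ≤ x n t
  time : (t - σ n) * (L n * a n) ≤ 31 / 1000 * lam
  r : -(C n / 8) ≤ x (n + 1) t / x n t
  w1 : w (n + 1) t ≤ 11 / 10 * dl1 lam * a n
  tl : ∀ j : ℕ, √(Yk κ x w (n + 2 + j) t) ≤ a n * Real.exp (-(Rr j - 102 / 10000) * lam)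
  tw : ∀ j : ℕ, w (n + 2 + j) t ≤ dlt lam * (a n * Real.exp (-(Rr j - 102 / 10000) * lam))
  ng : ∀ j : ℕ, -(a n * Real.exp (-(Rm j - 102 / 10000) * lam)) ≤ x (n + 2 + j) t

/-- The analysis of one stage. -/
def S_CURC : Prop := ∀ (κ lam N : ℝ) (L C ℓ : ℕ → ℝ) (B : ℕ → ℕ → ℝ) (T : ℝ)
  (x w f : ℕ → ℝ → ℝ) (n : ℕ) (σ a : ℕ → ℝ) (t1 : ℝ),
  Gd κ lam N L C ℓ B T x w f → Stg κ lam L T x w n σ a → Cur κ lam L T x w n σ a t1 →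
  ∀ t ∈ Ioo (σ n) t1, CurC κ lam L C x w n σ a t

/-- Induction over the stages. -/
def S_IND : Prop := S_CURC → S_ODE5

/-- Hypotheses for the barriers on `[σ n, t]`. -/
structure BH (κ lam N : ℝ) (L C ℓ : ℕ → ℝ) (B : ℕ → ℕ → ℝ) (T : ℝ)
    (x w f : ℕ → ℝ → ℝ) (n : ℕ) (σ a : ℕ → ℝ) (t1 t : ℝ) : Prop where
  g : Gd κ lam N L C ℓ B T x w f
  h : Stg κ lam L T x w n σ a
  hc : Cur κ lam L T x w n σ a t1
  ht : t ∈ Ioo (σ n) t1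
  hy : ∀ τ ∈ Ico (σ n) t, Hy κ lam C x w n a τ
  hr : -(C n / 8) ≤ x (n + 1) t / x n t
  hd : ∀ τ ∈ Ioo (σ n) t, ∃ r', HasDerivAt (fun s => x (n + 1) s / x n s) r' τ ∧
    998 / 1000 * (L n * x n τ * rt C x n τ) ≤ r'

/-- The barriers for the energies of the tails and the other modes. -/
def S_BAR1 : Prop := ∀ (κ lam N : ℝ) (L C ℓ : ℕ → ℝ) (B : ℕ → ℕ → ℝ) (T : ℝ)
  (x w f : ℕ → ℝ → ℝ) (n : ℕ) (σ a : ℕ → ℝ) (t1 t : ℝ),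
  BH κ lam N L C ℓ B T x w f n σ a t1 t →
  ∀ τ ∈ Icc (σ n) t, w (n + 1) τ ≤ 100 * dl1 lam * a n * rt C x n τ ∧
    ∀ j : ℕ, √(Yk κ x w (n + 2 + j) τ) ≤ bb lam C x a n j τ ∧
      w (n + 2 + j) τ ≤ dlt lam * bb lam C x a n j τ

/-- The barriers for the negative parts of the modes. -/
def S_BAR2 : Prop := ∀ (κ lam N : ℝ) (L C ℓ : ℕ → ℝ) (B : ℕ → ℕ → ℝ) (T : ℝ)
  (x w f : ℕ → ℝ → ℝ) (n : ℕ) (σ a : ℕ → ℝ) (t1 t : ℝ),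
  BH κ lam N L C ℓ B T x w f n σ a t1 t →
  (∀ τ ∈ Icc (σ n) t, w (n + 1) τ ≤ 100 * dl1 lam * a n * rt C x n τ ∧
    ∀ j : ℕ, √(Yk κ x w (n + 2 + j) τ) ≤ bb lam C x a n j τ ∧
      w (n + 2 + j) τ ≤ dlt lam * bb lam C x a n j τ) →
  ∀ τ ∈ Icc (σ n) t, ∀ j : ℕ, -(nb lam C x a n j τ) ≤ x (n + 2 + j) τ

/-- The growth of the ratio and the lower bound of the mode `n` during a stage, under the
bootstrap hypotheses. -/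
def S_RAT : Prop := ∀ (κ lam N : ℝ) (L C ℓ : ℕ → ℝ) (B : ℕ → ℕ → ℝ) (T : ℝ)
  (x w f : ℕ → ℝ → ℝ) (n : ℕ) (σ a : ℕ → ℝ) (t1 t : ℝ),
  Gd κ lam N L C ℓ B T x w f → Stg κ lam L T x w n σ a → Cur κ lam L T x w n σ a t1 →
  t ∈ Ioo (σ n) t1 → (∀ τ ∈ Ico (σ n) t, Hy κ lam C x w n a τ) →
  -(C n / 8) ≤ x (n + 1) (σ n) / x n (σ n) →
  (∀ τ ∈ Ioo (σ n) t, ∃ r', HasDerivAt (fun s => x (n + 1) s / x n s) r' τ ∧
    998 / 1000 * (L n * x n τ * rt C x n τ) ≤ r') ∧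
  -(C n / 8) ≤ x (n + 1) t / x n t ∧ 99 / 100 * a n ≤ x n t ∧
  (t - σ n) * (L n * a n) ≤ 31 / 1000 * lam

/-- Closing the bootstrap. -/
def S_CLOSE : Prop := S_BAR1 → S_BAR2 → S_RAT → S_CURC

end Pool.Agent.Y5.F
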