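import Pool.Agent.Y5.F.Q5

/-! Pointwise facts during a stage. -/

open Set Filter Topology MeasureTheory

set_option autoImplicit false

namespace Pool.Agent.Y5.F

open Pool.Agent.Y5.E (At Aw Ut Uw loc)

section seq

variable {κ lam N : ℝ} {L C ℓ : ℕ → ℝ} {B : ℕ → ℕ → ℝ}

/-- bounds for the exponential of the barrier exponent -/
lemma th_bounds (q : Pk κ lam N L C ℓ B) {x : ℕ → ℝ → ℝ} {n : ℕ} {t : ℝ}
    (h1 : 74 / 100 * C n ≤ rt C x n t) (h2 : rt C x n t ≤ 1 / 100 + C n) :
    0 < rt C x n t ∧ rt C x n t ≤ 101 / 10000 ∧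
    Real.exp (th lam C x n t) ≤ 100 * rt C x n t * Real.exp (101 / 10000 * lam + 2) ∧
    Real.exp (th lam C x n t) ≤ Real.exp (102 / 10000 * lam) ∧
    Real.exp (-(30402 / 1000000) * lam) ≤ Real.exp (th lam C x n t) := by
  have hC := q.Cp n
  have hCs := q.C_small n
  have hlb := q.lam_big
  have hl := q.lamp
  set ρ := rt C x n t with hρ
  have hρ0 : 0 < ρ := by linarith
  have hρ1 : ρ ≤ 101 / 10000 := by linarith
  have hlC : lam * C n ≤ 1 / 10 ^ 20 := by
    have h3 := q.EE_small 1 (α := -(299 / 10000)) (by norm_num)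
    have h4 := q.EE_lam
    have h5 := q.C_hi n
    have h6 := EE_pos lam
    calc lam * C n ≤ EE lam * Real.exp (-(299 / 10000) * lam) := by gcongr; linarith
      _ = EE lam ^ 1 * Real.exp (-(299 / 10000) * lam) := by ring
      _ ≤ _ := h3
  have h100 : Real.log ρ + Real.log 100 = Real.log (100 * ρ) := by
    rw [Real.log_mul (by norm_num) hρ0.ne', add_comm]
  have hlog1 : Real.log (100 * ρ) ≤ 1 / 50 := by
    have h3 := Real.log_le_sub_one_of_pos (show (0 : ℝ) < 100 * ρ by positivity)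
    linarith
  have hth : th lam C x n t = 101 / 100 * Real.log (100 * ρ) + 101 / 100 * lam * ρ := by
    rw [th, ← hρ, h100]
  have hlρ : 101 / 100 * lam * ρ ≤ 101 / 10000 * lam + 1 := by
    calc 101 / 100 * lam * ρ ≤ 101 / 100 * lam * (1 / 100 + C n) := by gcongr
      _ = 101 / 10000 * lam + 101 / 100 * (lam * C n) := by ring
      _ ≤ _ := by linarith
  refine ⟨hρ0, hρ1, ?_, ?_, ?_⟩
  · have h3 : 100 * ρ = Real.exp (Real.log (100 * ρ)) := (Real.exp_log (by positivity)).symm
    calc Real.exp (th lam C x n t)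
        ≤ Real.exp (Real.log (100 * ρ) + (101 / 10000 * lam + 2)) := by
          apply Real.exp_le_exp.2
          rw [hth]
          linarith
      _ = _ := by rw [Real.exp_add, ← h3]
  · apply Real.exp_le_exp.2
    rw [hth]
    linarith
  · apply Real.exp_le_exp.2
    rw [hth]
    have h4 : -(301 / 10000) * lam ≤ Real.log (100 * ρ) := by
      rw [Real.le_log_iff_exp_le (by positivity)]
      have := q.C_lo n
      linarith
    have h5 : 0 ≤ 101 / 100 * lam * ρ := by positivity
    linarith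

end seq

lemma sqrtW_succ {κ lam N : ℝ} {L C ℓ : ℕ → ℝ} {B : ℕ → ℕ → ℝ} {T : ℝ} {x w f : ℕ → ℝ → ℝ}
    (g : Gd κ lam N L C ℓ B T x w f) {t : ℝ} (ht : t ∈ Ico 0 T) (m : ℕ) :
    √(Wk κ w m t) ≤ w m t + √(Wk κ w (m + 1) t) := by
  refine (Real.sqrt_le_sqrt (g.W_succ_le ht m)).trans ?_
  have hw0 := g.sy.w0 m t ht
  have h3 := Real.sqrt_nonneg (Wk κ w (m + 1) t)
  have h4 := Real.sq_sqrt (g.W_nonneg (m + 1) t)
  apply Real.sqrt_le_iff.2
  constructor
  · positivity
  · nlinarith [mul_nonneg hw0 h3]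

/-- Pointwise facts. -/
structure Pw (κ lam : ℝ) (L C : ℕ → ℝ) (T : ℝ) (x w : ℕ → ℝ → ℝ) (n : ℕ) (a : ℕ → ℝ)
    (t : ℝ) : Prop where
  mem : t ∈ Ico 0 T
  a0 : 0 < a n
  a1 : a n ≤ 1
  X1 : 9 / 10 * a n < x n t
  X2 : x n t ≤ 30 * a n
  ρ1 : 74 / 100 * C n ≤ rt C x n t
  ρ2 : rt C x n t ≤ 101 / 10000
  ρ0 : 0 < rt C x n t
  Z : |x (n + 1) t| ≤ rt C x n t * x n t
  Y1 : √(Yk κ x w (n + 1) t) ≤ 1 / 100 * x n t
  Y1' : √(Yk κ x w (n + 1) t) ≤ 31 * a n * rt C x n t
  W1 : √(Wk κ w (n + 1) t) ≤ 200 * dl1 lam * a n * rt C x n t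
  w1 : w (n + 1) t ≤ 200 * dl1 lam * a n * rt C x n t
  Y2 : √(Yk κ x w (n + 2) t) ≤ 2 * bb lam C x a n 0 t
  b0 : bb lam C x a n 0 t ≤ Real.exp (-(147 / 10000) * lam) * (a n * rt C x n t)
  ab : a n * rt C x n t ≤ Real.exp (255 / 10000 * lam) * bb lam C x a n 0 t
  e1 : Real.exp (th lam C x n t) ≤ Real.exp (102 / 10000 * lam)
  e2 : Real.exp (-(30402 / 1000000) * lam) ≤ Real.exp (th lam C x n t)
  low : Low lam L x w a n t
  Yn : √(Yk κ x w n t) ≤ 30 * a n
  wn : w n t ≤ 200 * dl1 lam * a n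
  A1 : At lam x w (n + 1) t ≤ 31 * a n
  U1 : Ut L x (n + 1) t ≤ 1012 / 10 * (L n * a n / lam) + L n * x n t
  Uw1 : Uw L w (n + 1) t ≤ 201 * dl1 lam * (L n * a n)
  Aw1 : Aw lam w (n + 1) t ≤ 201 * dl1 lam * a n
  lc1 : loc L x w (n + 1) t ≤ 10 ^ 8 * dl1 lam * (L n * a n) * a n

namespace Gd

variable {κ lam N : ℝ} {L C ℓ : ℕ → ℝ} {B : ℕ → ℕ → ℝ} {T : ℝ} {x w f : ℕ → ℝ → ℝ}
variable {n : ℕ} {σ a : ℕ → ℝ} {t1 : ℝ}

lemma memI (h : Stg κ lam L T x w n σ a) (hc : Cur κ lam L T x w n σ a t1) {t : ℝ}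
    (ht : t ∈ Ico (σ n) t1) : t ∈ Ico 0 T :=
  ⟨(σnn h le_rfl).trans ht.1, ht.2.trans_le hc.leT⟩

lemma Xpos (h : Stg κ lam L T x w n σ a) (hc : Cur κ lam L T x w n σ a t1) {t : ℝ}
    (ht : t ∈ Ico (σ n) t1) : 0 < x n t := by
  have ha := apos h n le_rfl
  exact (by positivity : 0 < 9 / 10 * a n).trans (hc.act t ht).2

lemma Y1le (hc : Cur κ lam L T x w n σ a t1) (h : Stg κ lam L T x w n σ a) {t : ℝ}
    (ht : t ∈ Ico (σ n) t1) : √(Yk κ x w (n + 1) t) ≤ 1 / 100 * x n t := by
  have h1 := (hc.act t ht).1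
  have hX := Xpos h hc ht
  exact Real.sqrt_le_iff.2 ⟨by positivity, h1.le⟩

lemma rtb (g : Gd κ lam N L C ℓ B T x w f) (h : Stg κ lam L T x w n σ a)
    (hc : Cur κ lam L T x w n σ a t1) {t : ℝ} (ht : t ∈ Ico (σ n) t1) :
    rt C x n t ≤ 1 / 100 + C n := by
  have hX := Xpos h hc ht
  have h1 := (le_abs_self _).trans ((g.x_le (memI h hc ht) ((n + 1))).trans (Y1le hc h ht))
  have hC := g.q.Cp n
  have h2 : x (n + 1) t / x n t ≤ 1 / 100 := by
    rw [div_le_iff₀ hX]; exact h1
  unfold rt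
  linarith

/-- the pointwise facts hold under the bootstrap hypotheses -/
lemma pw (g : Gd κ lam N L C ℓ B T x w f) (h : Stg κ lam L T x w n σ a)
    (hc : Cur κ lam L T x w n σ a t1) {t : ℝ} (ht : t ∈ Ico (σ n) t1)
    (hy : Hy κ lam C x w n a t) : Pw κ lam L C T x w n a t := by
  have q := g.q
  have hI := memI h hc ht
  have hX := Xpos h hc ht
  have ha := apos h n le_rfl
  have ha1 := Gd.ale h n le_rfl
  have hC := q.Cp n
  have hCs := q.C_small n
  have hl := q.lamp
  have hlb := q.lam_big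
  have hL := q.Lp n
  have hd := dl1_pos lam
  have hds := dl1_small1 q
  have hs := q.sq_lam
  have hs0 := q.sq_lam0
  obtain ⟨hlow, hYn, hwn⟩ := (g.UB h hc.leT hc.le n le_rfl).1 t ht
  have hρ1 : 74 / 100 * C n ≤ rt C x n t := by
    have := hy.r
    unfold rt
    linarith
  obtain ⟨hρ0, hρ2, he0, he1, he2⟩ := th_bounds q hρ1 (g.rtb h hc ht)
  have hX1 := (hc.act t ht).2
  have hX2 : x n t ≤ 30 * a n := ((le_abs_self _).trans (g.x_le hI (n))).trans hYn
  have hZ : |x (n + 1) t| ≤ rt C x n t * x n t := by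
    have h1 : |x (n + 1) t / x n t| ≤ rt C x n t := by
      unfold rt
      have := hy.r
      rw [abs_le]
      constructor <;> linarith
    rwa [abs_div, abs_of_pos hX, div_le_iff₀ hX] at h1
  have hb0 : bb lam C x a n 0 t ≤ Real.exp (-(147 / 10000) * lam) * (a n * rt C x n t) := by
    have e : Rr 0 = 25 / 1000 := by simp [Rr]
    unfold bb
    rw [e]
    calc a n * Real.exp (-(25 / 1000) * lam) * Real.exp (th lam C x n t)
        ≤ a n * Real.exp (-(25 / 1000) * lam)
          * (100 * rt C x n t * Real.exp (101 / 10000 * lam + 2)) := by gcongr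
      _ = (100 * (Real.exp (-(25 / 1000) * lam) * Real.exp (101 / 10000 * lam + 2)))
          * (a n * rt C x n t) := by ring
      _ ≤ Real.exp (-(147 / 10000) * lam) * (a n * rt C x n t) := by
          gcongr
          rw [← Real.exp_add]
          have h5 : (100 : ℝ) ≤ Real.exp 100 := by
            have := Real.add_one_le_exp (100 : ℝ); linarith
          calc 100 * Real.exp (-(25 / 1000) * lam + (101 / 10000 * lam + 2))
              ≤ Real.exp 100 * Real.exp (-(25 / 1000) * lam + (101 / 10000 * lam + 2)) := by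
                gcongr
            _ = Real.exp (100 + (-(25 / 1000) * lam + (101 / 10000 * lam + 2))) := by
                rw [← Real.exp_add]
            _ ≤ _ := by
                apply Real.exp_le_exp.2
                linarith
  have hab : a n * rt C x n t ≤ Real.exp (255 / 10000 * lam) * bb lam C x a n 0 t := by
    have e : Rr 0 = 25 / 1000 := by simp [Rr]
    unfold bb
    rw [e]
    set ρ := rt C x n t with hρ
    have h5 : ρ ≤ Real.exp (5 / 10000 * lam) * Real.exp (th lam C x n t) := by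
      rw [← Real.exp_add]
      rw [← Real.log_le_iff_le_exp hρ0]
      unfold th
      rw [← hρ]
      have h6 : 0 ≤ 101 / 100 * lam * ρ := by positivity
      have h7 : (0 : ℝ) ≤ Real.log 100 := Real.log_nonneg (by norm_num)
      have h8 : -(301 / 10000) * lam - 1 ≤ Real.log ρ := by
        rw [Real.le_log_iff_exp_le hρ0]
        have h9 := q.C_lo n
        have h10 : Real.exp (-(301 / 10000) * lam - 1)
            = Real.exp (-(301 / 10000) * lam) * Real.exp (-1) := by
          rw [← Real.exp_add]; congr 1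
        rw [h10]
        have h11 : Real.exp (-1) ≤ 74 / 100 := by
          have := Real.exp_neg_one_lt_d9; linarith
        calc Real.exp (-(301 / 10000) * lam) * Real.exp (-1) ≤ C n * (74 / 100) := by gcongr
          _ ≤ ρ := by linarith
      linarith
    have e5 : Real.exp (255 / 10000 * lam) * Real.exp (-(25 / 1000) * lam)
        = Real.exp (5 / 10000 * lam) := by rw [← Real.exp_add]; congr 1; ring
    calc a n * ρ ≤ a n * (Real.exp (5 / 10000 * lam) * Real.exp (th lam C x n t)) := by gcongr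
      _ = (Real.exp (255 / 10000 * lam) * Real.exp (-(25 / 1000) * lam)) * a n
            * Real.exp (th lam C x n t) := by
          rw [e5]; ring
      _ = _ := by ring
  have hw0 := g.sy.w0
  have hw1 : w (n + 1) t ≤ √(Wk κ w (n + 1) t) := by
    refine Real.le_sqrt_of_sq_le ?_
    rw [g.W_succ hI]
    have := mul_nonneg (q.κk0 2).le (g.W_nonneg (n + 1 + 1) t)
    linarith
  have hW1 := hy.W.le
  have hY2 := hy.Y.le
  have haρ : 0 < a n * rt C x n t := by positivity
  have heps : Real.exp (-(147 / 10000) * lam) ≤ 1 / 10 ^ 20 := q.exp_small (by norm_num)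
  have hY1' : √(Yk κ x w (n + 1) t) ≤ 31 * a n * rt C x n t := by
    have h1 : √(Yk κ x w (n + 1) t) ≤ |x (n + 1) t| + w (n + 1) t + √(Yk κ x w (n + 2) t) := by
      refine (Real.sqrt_le_sqrt (g.Y_succ_le hI (n + 1))).trans ?_
      apply Real.sqrt_le_iff.2
      have h2 := abs_nonneg (x (n + 1) t)
      have h3 := hw0 (n + 1) t hI
      have h4 := Real.sqrt_nonneg (Yk κ x w (n + 2) t)
      have h5 := Real.sq_sqrt (g.Y_nonneg (n + 2) t)
      constructor
      · positivity
      · show x (n + 1) t ^ 2 + w (n + 1) t ^ 2 + Yk κ x w (n + 2) t ≤ _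
        have h6 := sq_abs (x (n + 1) t)
        nlinarith [mul_nonneg h2 h3, mul_nonneg h2 h4, mul_nonneg h3 h4]
    have h2 : |x (n + 1) t| ≤ 30 * (a n * rt C x n t) := by
      calc |x (n + 1) t| ≤ rt C x n t * x n t := hZ
        _ ≤ rt C x n t * (30 * a n) := by gcongr
        _ = _ := by ring
    have h3 : w (n + 1) t ≤ 1 / 10 * (a n * rt C x n t) := by
      calc w (n + 1) t ≤ 200 * dl1 lam * a n * rt C x n t := hw1.trans hW1
        _ = (200 * dl1 lam) * (a n * rt C x n t) := by ring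
        _ ≤ 1 / 10 * (a n * rt C x n t) := by gcongr; linarith
    have h4 : √(Yk κ x w (n + 2) t) ≤ 1 / 10 * (a n * rt C x n t) := by
      calc √(Yk κ x w (n + 2) t) ≤ 2 * (Real.exp (-(147 / 10000) * lam) * (a n * rt C x n t)) := by
            linarith
        _ ≤ 2 * (1 / 10 ^ 20 * (a n * rt C x n t)) := by gcongr
        _ ≤ _ := by linarith
    linarith
  have hxn : |x n t| = x n t := abs_of_pos hX
  have hU1 : Ut L x (n + 1) t ≤ 1012 / 10 * (L n * a n / lam) + L n * x n t := by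
    rw [U_succ, hxn]
    have := hlow.U
    linarith
  have hA1 : At lam x w (n + 1) t ≤ 31 * a n := by
    rw [A_succ, hxn]
    have h1 := hlow.A
    have h2 := g.A_nonneg hI n
    have h3 : (√lam)⁻¹ * At lam x w n t ≤ 1 / 10 ^ 15 * (103 * a n) := by gcongr
    have h4 : 200 * dl1 lam * a n ≤ 1 / 10 * a n := by gcongr; linarith
    linarith
  have hUw1 : Uw L w (n + 1) t ≤ 201 * dl1 lam * (L n * a n) := by
    rw [Uw_succ]
    have h1 := hlow.Uw
    have h2 : L n * w n t ≤ 200 * dl1 lam * (L n * a n) := by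
      calc L n * w n t ≤ L n * (200 * dl1 lam * a n) := by gcongr
        _ = _ := by ring
    have h3 : 10 ^ 5 * dl1 lam * (L n * a n / lam) ≤ dl1 lam * (L n * a n) := by
      calc 10 ^ 5 * dl1 lam * (L n * a n / lam) = (10 ^ 5 / lam) * (dl1 lam * (L n * a n)) := by
            ring
        _ ≤ 1 * (dl1 lam * (L n * a n)) := by
            gcongr
            rw [div_le_one hl]; linarith
        _ = _ := one_mul _
    linarith
  have hAw1 : Aw lam w (n + 1) t ≤ 201 * dl1 lam * a n := by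
    rw [Aw_succ]
    have h1 := hlow.Aw
    have h2 := g.Aw_nonneg hI n
    have h3 : (√lam)⁻¹ * Aw lam w n t ≤ 1 / 10 ^ 15 * (10 ^ 5 * dl1 lam * a n) := by gcongr
    have : 0 < dl1 lam * a n := by positivity
    linarith
  have hlc1 : loc L x w (n + 1) t ≤ 10 ^ 8 * dl1 lam * (L n * a n) * a n := by
    have hm : ¬ (n + 1 = 0) := Nat.succ_ne_zero n
    rw [loc, if_neg hm, Nat.add_sub_cancel]
    have hzn : |x n t| + w n t ≤ 31 * a n := by
      rw [hxn]
      have h4 : 200 * dl1 lam * a n ≤ 1 / 10 * a n := by gcongr; linarith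
      linarith
    have hz2 : |x (n + 1 - 2) t| + w (n + 1 - 2) t ≤ 102 * a n := by
      rcases n with _ | m
      · simp only [Nat.zero_add, Nat.reduceSubDiff] at *
        linarith
      · have e : m + 1 + 1 - 2 = m := by omega
        rw [e]
        have := hlow.z (Nat.succ_ne_zero m)
        rwa [Nat.add_sub_cancel] at this
    have hw2 : w (n + 1 - 2) t ≤ 10 ^ 5 * dl1 lam * a n := by
      rcases n with _ | m
      · simp only [Nat.zero_add, Nat.reduceSubDiff] at *
        have : 0 < dl1 lam * a 0 := by positivity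
        linarith
      · have e : m + 1 + 1 - 2 = m := by omega
        rw [e]
        have := hlow.wz (Nat.succ_ne_zero m)
        rwa [Nat.add_sub_cancel] at this
    have hw0' := hw0 (n + 1 - 2) t hI
    have hw0'' := hw0 n t hI
    have hs1 : |x n t| + w n t + |x (n + 1 - 2) t| + w (n + 1 - 2) t ≤ 133 * a n := by
      linarith
    have hdp : 0 < dl1 lam * a n := by positivity
    have hs2 : w n t + w (n + 1 - 2) t ≤ 100200 * dl1 lam * a n := by linarith
    calc L n * ((|x n t| + w n t + |x (n + 1 - 2) t| + w (n + 1 - 2) t)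
            * (w n t + w (n + 1 - 2) t))
        ≤ L n * ((133 * a n) * (100200 * dl1 lam * a n)) := by gcongr
      _ = (133 * 100200) * (dl1 lam * (L n * a n) * a n) := by ring
      _ ≤ 10 ^ 8 * (dl1 lam * (L n * a n) * a n) := by gcongr; norm_num
      _ = _ := by ring
  exact ⟨hI, ha, ha1, hX1, hX2, hρ1, hρ2, hρ0, hZ, Y1le hc h ht, hY1', hW1, hw1.trans hW1, hY2,
    hb0, hab, he1, he2, hlow, hYn, hwn, hA1, hU1, hUw1, hAw1, hlc1⟩

end Gd

end Pool.Agent.Y5.F
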