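import Pool.Agent.Y5.F.Q7

/-! The previous mode, and the growth rates during a stage. -/

open Set Filter Topology MeasureTheory

set_option autoImplicit false

namespace Pool.Agent.Y5.F

open Pool.Agent.Y5.E (At Aw Ut Uw loc)

lemma rderE {X Z c ρ L v0 v1 : ℝ} (hX : 0 < X) (hL : 0 < L) (hρ : ρ = Z / X + 99 / 100 * c)
    (hρ0 : 0 < ρ) (hc : 0 < c) (hZ : |Z| ≤ ρ * X)
    (h1 : c * L * X ^ 2 + L * X * Z - 11 / 10000 * (L * X ^ 2 * ρ) ≤ v1)
    (h0 : |v0| ≤ 3 / 10000 * (L * X ^ 2)) :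
    998 / 1000 * (L * X * ρ) ≤ (v1 * X - Z * v0) / X ^ 2 := by
  rw [le_div_iff₀ (by positivity)]
  have h2 := mul_le_mul_of_nonneg_right h1 hX.le
  have h3 : |Z * v0| ≤ (ρ * X) * (3 / 10000 * (L * X ^ 2)) := by
    rw [abs_mul]; gcongr
  have h4 := le_of_abs_le h3
  have hZ' : Z = (ρ - 99 / 100 * c) * X := by rw [hρ]; field_simp; ring
  have h5 : 0 < L * X ^ 3 * ρ := by positivity
  have h6 : 0 < L * X ^ 3 * c := by positivity
  have e1 : (c * L * X ^ 2 + L * X * Z - 11 / 10000 * (L * X ^ 2 * ρ)) * X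
      = 1 / 100 * (L * X ^ 3 * c) + (1 - 11 / 10000) * (L * X ^ 3 * ρ) := by
    rw [hZ']; ring
  have e2 : 998 / 1000 * (L * X * ρ) * X ^ 2 = 998 / 1000 * (L * X ^ 3 * ρ) := by ring
  have e3 : (ρ * X) * (3 / 10000 * (L * X ^ 2)) = 3 / 10000 * (L * X ^ 3 * ρ) := by ring
  rw [e2]
  rw [e1] at h2
  rw [e3] at h4
  linarith

namespace Gd

variable {κ lam N : ℝ} {L C ℓ : ℕ → ℝ} {B : ℕ → ℕ → ℝ} {T : ℝ} {x w f : ℕ → ℝ → ℝ}
variable {n : ℕ} {σ a : ℕ → ℝ} {t1 t : ℝ}

lemma Wn (g : Gd κ lam N L C ℓ B T x w f) (p : Pw κ lam L C T x w n a t) :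
    √(Wk κ w n t) ≤ 400 * dl1 lam * a n := by
  have ha := p.a0
  have hd := dl1_pos lam
  have hρ1 : rt C x n t ≤ 1 := by have := p.ρ2; linarith
  have hw0 := g.sy.w0 n t p.mem
  have h1 : √(Wk κ w n t) ≤ w n t + √(Wk κ w (n + 1) t) := sqrtW_succ g p.mem n
  have h2 : 200 * dl1 lam * a n * rt C x n t ≤ 200 * dl1 lam * a n * 1 := by gcongr
  have := p.wn
  have := p.W1
  linarith

/-- the force on the previous mode -/
lemma fp (g : Gd κ lam N L C ℓ B T x w f) {m : ℕ} (h : Stg κ lam L T x w (m + 1) σ a)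
    (hc : Cur κ lam L T x w (m + 1) σ a t1) (ht : t ∈ Ico (σ (m + 1)) t1)
    (hy : Hy κ lam C x w (m + 1) a t) :
    |f m t| ≤ 1 / 10 ^ 3 * (L m * a (m + 1) ^ 2) := by
  have q := g.q
  have p := g.pw h hc ht hy
  have hf := g.sy.fb m t p.mem
  have hL := q.Lp m
  have ha := p.a0
  have ham := apos h m (by omega)
  have has := astep h (i := m) (by omega)
  have hd := dl1_pos lam
  have hl1 := q.lam1
  have hN := q.N_one
  have hmt : t ∈ Ico (σ m) t1 := ⟨(h.σlt m (by omega)).le.trans ht.1, ht.2⟩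
  obtain ⟨hlow, _, hwm⟩ := (g.UB h hc.leT hc.le m (by omega)).1 t hmt
  have hYm := (g.UB h hc.leT hc.le m (by omega)).2 (by omega) t ht
  have hYn := p.Yn
  have hA0 := g.A_nonneg p.mem m
  have hAw0 := g.Aw_nonneg p.mem m
  have hU0 := g.Uw_nonneg p.mem m
  have hw0 := g.sy.w0 m t p.mem
  have hdp : 0 < dl1 lam * a (m + 1) := by positivity
  have hGl : L m * a m / lam ≤ L m * (1000 / 9 * a (m + 1)) := by
    calc L m * a m / lam ≤ L m * a m := div_le_self (by positivity) hl1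
      _ ≤ _ := by gcongr
  have hA : At lam x w m t ≤ 11500 * a (m + 1) := by
    have := hlow.A
    linarith
  have hAw : Aw lam w m t ≤ 12 * 10 ^ 6 * dl1 lam * a (m + 1) := by
    calc Aw lam w m t ≤ 10 ^ 5 * dl1 lam * a m := hlow.Aw
      _ ≤ 10 ^ 5 * dl1 lam * (1000 / 9 * a (m + 1)) := by gcongr
      _ = (10 ^ 5 * (1000 / 9)) * (dl1 lam * a (m + 1)) := by ring
      _ ≤ (12 * 10 ^ 6) * (dl1 lam * a (m + 1)) := by gcongr ?_ * _; norm_num
      _ = _ := by ring
  have hw : w m t ≤ 23000 * dl1 lam * a (m + 1) := by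
    calc w m t ≤ 200 * dl1 lam * a m := hwm
      _ ≤ 200 * dl1 lam * (1000 / 9 * a (m + 1)) := by gcongr
      _ = (200 * (1000 / 9)) * (dl1 lam * a (m + 1)) := by ring
      _ ≤ 23000 * (dl1 lam * a (m + 1)) := by gcongr ?_ * _; norm_num
      _ = _ := by ring
  have hW : √(Wk κ w m t) ≤ 24000 * dl1 lam * a (m + 1) := by
    have h1 : √(Wk κ w m t) ≤ w m t + √(Wk κ w (m + 1) t) := sqrtW_succ g p.mem m
    have := g.Wn p
    linarith
  have s1 : L m * (At lam x w m t + √(Yk κ x w m t)) * √(Wk κ w m t)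
      ≤ 10 ^ 9 * dl1 lam * (L m * a (m + 1) ^ 2) := by
    calc L m * (At lam x w m t + √(Yk κ x w m t)) * √(Wk κ w m t)
        ≤ L m * (11500 * a (m + 1) + 101 * a (m + 1)) * (24000 * dl1 lam * a (m + 1)) := by
          gcongr
      _ = (11601 * 24000) * (dl1 lam * (L m * a (m + 1) ^ 2)) := by ring
      _ ≤ 10 ^ 9 * (dl1 lam * (L m * a (m + 1) ^ 2)) := by gcongr ?_ * _; norm_num
      _ = _ := by ring
  have s2 : Uw L w m t * √(Yk κ x w m t) ≤ 10 ^ 10 * dl1 lam * (L m * a (m + 1) ^ 2) := by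
    calc Uw L w m t * √(Yk κ x w m t)
        ≤ (10 ^ 5 * dl1 lam * (L m * (1000 / 9 * a (m + 1)))) * (101 * a (m + 1)) := by
          have h1 := hlow.Uw
          have h2 : 10 ^ 5 * dl1 lam * (L m * a m / lam)
              ≤ 10 ^ 5 * dl1 lam * (L m * (1000 / 9 * a (m + 1))) := by gcongr
          have h3 := h1.trans h2
          gcongr
      _ = (10 ^ 5 * (1000 / 9) * 101) * (dl1 lam * (L m * a (m + 1) ^ 2)) := by ring
      _ ≤ 10 ^ 10 * (dl1 lam * (L m * a (m + 1) ^ 2)) := by gcongr ?_ * _; norm_num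
      _ = _ := by ring
  have s3 : L m * Aw lam w m t * √(Yk κ x w (m + 1) t)
      ≤ 10 ^ 9 * dl1 lam * (L m * a (m + 1) ^ 2) := by
    calc L m * Aw lam w m t * √(Yk κ x w (m + 1) t)
        ≤ L m * (12 * 10 ^ 6 * dl1 lam * a (m + 1)) * (30 * a (m + 1)) := by
          gcongr
      _ = (12 * 10 ^ 6 * 30) * (dl1 lam * (L m * a (m + 1) ^ 2)) := by ring
      _ ≤ 10 ^ 9 * (dl1 lam * (L m * a (m + 1) ^ 2)) := by gcongr ?_ * _; norm_num
      _ = _ := by ring
  have s4 : loc L x w m t ≤ 10 ^ 16 * dl1 lam * (L m * a (m + 1) ^ 2) := by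
    calc loc L x w m t ≤ 10 ^ 11 * dl1 lam * (L m * a m / lam) * a m := hlow.lc
      _ ≤ 10 ^ 11 * dl1 lam * (L m * (1000 / 9 * a (m + 1))) * (1000 / 9 * a (m + 1)) := by
          gcongr
      _ = (10 ^ 11 * (1000 / 9) ^ 2) * (dl1 lam * (L m * a (m + 1) ^ 2)) := by ring
      _ ≤ 10 ^ 16 * (dl1 lam * (L m * a (m + 1) ^ 2)) := by gcongr ?_ * _; norm_num
      _ = _ := by ring
  have hNd := N_dl1 q
  have hP : 0 < L m * a (m + 1) ^ 2 := by positivity
  calc |f m t| ≤ N * (10 ^ 9 * dl1 lam * (L m * a (m + 1) ^ 2)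
        + 10 ^ 10 * dl1 lam * (L m * a (m + 1) ^ 2)
        + 10 ^ 9 * dl1 lam * (L m * a (m + 1) ^ 2)
        + 10 ^ 16 * dl1 lam * (L m * a (m + 1) ^ 2)) := by
        refine hf.trans ?_
        gcongr
    _ = (10 ^ 9 + 10 ^ 10 + 10 ^ 9 + 10 ^ 16) * (N * dl1 lam) * (L m * a (m + 1) ^ 2) := by ring
    _ ≤ 10 ^ 17 * (N * dl1 lam) * (L m * a (m + 1) ^ 2) := by
        gcongr ?_ * _ * _
        norm_num
    _ = 1 / 10 ^ 3 * (10 ^ 20 * N * dl1 lam) * (L m * a (m + 1) ^ 2) := by ring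
    _ ≤ 1 / 10 ^ 3 * 1 * (L m * a (m + 1) ^ 2) := by
        gcongr
        exact hNd.trans (by norm_num)
    _ = _ := by ring

/-- lower bound of the previous mode -/
lemma C4 (g : Gd κ lam N L C ℓ B T x w f) {m : ℕ} (h : Stg κ lam L T x w (m + 1) σ a)
    (hc : Cur κ lam L T x w (m + 1) σ a t1) (htt : t ≤ t1)
    (hP : ∀ τ ∈ Ico (σ (m + 1)) t, Hy κ lam C x w (m + 1) a τ) : ∀ τ ∈ Ico (σ (m + 1)) t,
    50 * a (m + 1) ≤ x m τ ∧ Ut L x m τ ≤ 1 / 1000 * (L m * a (m + 1)) := by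
  have q := g.q
  have hlm := q.lamp
  have hlmb := q.lam_big
  have hL := q.Lp m
  have hC := q.Cp m
  have hub := g.UB h hc.leT hc.le m (by omega)
  have hub1 := g.UB h hc.leT hc.le (m + 1) le_rfl
  have ha := apos h (m + 1) le_rfl
  have ham := apos h m (by omega)
  have has := astep h (i := m) (by omega)
  have hvis := g.vis h m (by omega)
  have hCs' := q.C_small m
  have he := q.L_succ m
  set P := L m * a (m + 1) with hP'
  have hP0 : 0 < P := by positivity
  have hGP : L m * a m ≤ 1000 / 9 * P := by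
    rw [hP']
    calc L m * a m ≤ L m * (1000 / 9 * a (m + 1)) := by gcongr
      _ = _ := by ring
  have hUm : ∀ τ ∈ Ico (σ (m + 1)) t, Ut L x m τ ≤ 1 / 1000 * P := by
    intro τ hτ
    have h1 := (hub.1 τ ⟨(h.σlt m (by omega)).le.trans hτ.1, hτ.2.trans_le htt⟩).1.U
    refine h1.trans ?_
    rw [← mul_div_assoc, div_le_iff₀ hlm]
    nlinarith
  intro τ hτ
  refine ⟨?_, hUm τ hτ⟩
  set R := 1000 * a (m + 1) * P with hR
  have hd : ℓ m ≤ 1 / 1000 * P := by
    have h1 : ℓ m * 10 ^ 30 ≤ ℓ m * lam := by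
      have := q.ℓ_nonneg m
      gcongr
    nlinarith
  have hα0 : 0 ≤ σ (m + 1) := σnn h le_rfl
  have h1 := mono_of (f := fun s => x m s + R * s)
    (f' := fun s => (vfk κ L C ℓ B (fun k => x k s) m + f m s) + R) hτ.1
    (((g.cont m).mono fun s hs => ⟨hα0.trans hs.1, hs.2.trans_lt
      (hτ.2.trans_le (htt.trans hc.leT))⟩).add (by fun_prop))
    (fun s hs => by
      have := (g.derivAt m (t := s) ⟨hα0.trans_lt hs.1, hs.2.trans
        (hτ.2.trans_le (htt.trans hc.leT))⟩).fun_add ((hasDerivAt_id s).const_mul R)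
      simpa using this)
    (fun s hs => by
      have hs0 : s ∈ Ico (σ (m + 1)) t := ⟨hs.1.le, hs.2.trans hτ.2⟩
      have hs1 : s ∈ Ico (σ (m + 1)) t1 := ⟨hs.1.le, hs0.2.trans_le htt⟩
      have hsI := memI h hc hs1
      have h2 := g.vf_ge hsI m
      have h3 : |x m s| ≤ 101 * a (m + 1) :=
        (g.x_le hsI _).trans (hub.2 (by omega) s hs1)
      have h4 : |x (m + 1) s| ≤ 30 * a (m + 1) :=
        (g.x_le hsI _).trans (hub1.1 s hs1).2.1
      have h6 : Yk κ x w (m + 1) s ≤ 900 * a (m + 1) ^ 2 := by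
        have := (hub1.1 s hs1).2.1
        calc Yk κ x w (m + 1) s = √(Yk κ x w (m + 1) s) ^ 2 := (Real.sq_sqrt (g.Y_nonneg _ _)).symm
          _ ≤ (30 * a (m + 1)) ^ 2 := by gcongr
          _ = _ := by ring
      have h7 := hUm s hs0
      have h8 : C m * L m * |x (m + 1) s| ≤ 1 / 1000 * P := by
        calc C m * L m * |x (m + 1) s| ≤ C m * L m * (30 * a (m + 1)) := by gcongr
          _ = 30 * C m * P := by rw [hP']; ring
          _ ≤ 1 / 1000 * P := by gcongr; linarith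
      have h9 : (ℓ m + C m * L m * |x (m + 1) s|
          + 1001 / 1000 * Ut L x m s) * |x m s| ≤ 5 / 1000 * P * (101 * a (m + 1)) := by
        have := U_nonneg (x := x) q m s
        have := q.ℓ_nonneg m
        gcongr
        linarith
      have h10 : 1001 / 1000 * L m * Yk κ x w (m + 1) s ≤ 901 * a (m + 1) * P := by
        calc 1001 / 1000 * L m * Yk κ x w (m + 1) s
            ≤ 1001 / 1000 * L m * (900 * a (m + 1) ^ 2) := by gcongr
          _ = 1001 / 1000 * 900 * (a (m + 1) * P) := by rw [hP']; ring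
          _ ≤ 901 * (a (m + 1) * P) := by gcongr; norm_num
          _ = _ := by ring
      have h11 := src_nonneg (x := x) q m s
      have h12 : 0 < a (m + 1) * P := by positivity
      have h13 : |f m s| ≤ 1 / 10 ^ 3 * (a (m + 1) * P) := by
        refine (g.fp h hc hs1 (hP s hs0)).trans (le_of_eq ?_)
        rw [hP']; ring
      rw [hR]
      nlinarith)
  rw [h.cross m (by omega)] at h1
  have hel : (τ - σ (m + 1)) * P ≤ 324 / 10000 := by
    have h2 := g.el' h hc.le (i := m + 1) le_rfl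
    have hG1 := g.Gpos h (m + 1) le_rfl
    have h3 : (τ - σ (m + 1)) * (L (m + 1) * a (m + 1))
        ≤ (t1 - σ (m + 1)) * (L (m + 1) * a (m + 1)) := by
      gcongr; exact hτ.2.le.trans htt
    have h4 : (τ - σ (m + 1)) * (L (m + 1) * a (m + 1))
        = ((τ - σ (m + 1)) * P) * lam := by rw [he, hP']; ring
    rw [h4] at h3
    exact le_of_mul_le_mul_right (h3.trans h2) hlm
  have h2 : R * τ - R * σ (m + 1) = 1000 * a (m + 1) * ((τ - σ (m + 1)) * P) := by
    rw [hR]; ring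
  have h3 : 1000 * a (m + 1) * ((τ - σ (m + 1)) * P) ≤ 1000 * a (m + 1) * (324 / 10000) := by
    gcongr
  linarith

lemma strain_nonneg (g : Gd κ lam N L C ℓ B T x w f) (h : Stg κ lam L T x w n σ a)
    (hc : Cur κ lam L T x w n σ a t1) (htt : t ≤ t1)
    (hP : ∀ τ ∈ Ico (σ n) t, Hy κ lam C x w n a τ) {τ : ℝ} (hτ : τ ∈ Ico (σ n) t) :
    0 ≤ ∑ i ∈ Finset.range n, L i * B i n * x i τ := by
  rcases n with _ | m
  · simp
  · rw [Finset.sum_range_succ]
    obtain ⟨h1, h2⟩ := g.C4 h hc htt hP τ hτ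
    have h3 := (abs_le.1 (strain (x := x) g.q (m := m) (k := m + 1) (by omega) τ)).1
    have ha := apos h (m + 1) le_rfl
    have hB := g.q.B_lo m (m + 1) (by omega)
    have hL := g.q.Lp m
    have h4 : L m * (999 / 1000) * (50 * a (m + 1)) ≤ L m * B m (m + 1) * x m τ := by
      gcongr
    have h5 : 0 < L m * a (m + 1) := by positivity
    nlinarith

/-- numerical facts -/
lemma smalls (g : Gd κ lam N L C ℓ B T x w f) (h : Stg κ lam L T x w n σ a)
    (p : Pw κ lam L C T x w n a t) :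
    ℓ (n + 1) ≤ 12 / 10 ^ 7 * (L n * x n t) ∧
    1001 / 1000 * Ut L x n t ≤ 1 / 10 ^ 20 * (L n * x n t) ∧
    C (n + 1) * L (n + 1) * |x (n + 2) t| ≤ 1 / 10 ^ 10 * (L n * x n t) ∧
    1001 / 1000 * L (n + 1) * Yk κ x w (n + 2) t
      ≤ 1 / 10 ^ 10 * (L n * x n t ^ 2 * rt C x n t) ∧
    1001 / 1000 * L n * (w (n + 1) t ^ 2 + Yk κ x w (n + 2) t)
      ≤ 1 / 10 ^ 10 / lam * (L n * a n * x n t) ∧
    ℓ n ≤ 12 / 10 ^ 5 * (L n * a n / lam) ∧
    ℓ n ≤ 1 / 10 ^ 20 * (L n * x n t) := by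
  have q := g.q
  have hL := q.Lp n
  have hl := q.lamp
  have hlb := q.lam_big
  have ha := p.a0
  have ha1 := p.a1
  have hX : 0 < x n t := by have := p.X1; linarith
  have haX : a n ≤ 10 / 9 * x n t := by have := p.X1; linarith
  have hGX : L n * a n ≤ 10 / 9 * (L n * x n t) := by
    calc L n * a n ≤ L n * (10 / 9 * x n t) := by gcongr
      _ = _ := by ring
  have hρ := p.ρ0
  have hρ1 : rt C x n t ≤ 1 := by have := p.ρ2; linarith
  have hd := dl1_pos lam
  set G := L n * a n with hG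
  have hGp : 0 < G := by positivity
  have hlE : lam ≤ EE lam := by have := q.EE_lam; linarith
  have hEb := q.EE_big
  have hE := EE_pos lam
  have hwv : 0 < L n * x n t := by positivity
  -- bound of the tail
  have hY2 : Yk κ x w (n + 2) t ≤ 4 * (Real.exp (-(294 / 10000) * lam) * (a n * rt C x n t) ^ 2) := by
    have h1 := p.Y2
    have h2 := p.b0
    have h3 : √(Yk κ x w (n + 2) t) ≤ 2 * (Real.exp (-(147 / 10000) * lam) * (a n * rt C x n t)) := by
      linarith
    have e : Real.exp (-(147 / 10000) * lam) ^ 2 = Real.exp (-(294 / 10000) * lam) := by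
      rw [← Real.exp_nat_mul]; congr 1; push_cast; ring
    calc Yk κ x w (n + 2) t = √(Yk κ x w (n + 2) t) ^ 2 := (Real.sq_sqrt (g.Y_nonneg _ _)).symm
      _ ≤ (2 * (Real.exp (-(147 / 10000) * lam) * (a n * rt C x n t))) ^ 2 := by gcongr
      _ = 4 * (Real.exp (-(147 / 10000) * lam) ^ 2 * (a n * rt C x n t) ^ 2) := by ring
      _ = _ := by rw [e]
  have hs : lam ^ 2 * 10 ^ 30 * Real.exp (-(294 / 10000) * lam) ≤ 1 / 10 ^ 20 := by
    have h1 := q.EE_small 3 (α := -(294 / 10000)) (by norm_num)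
    refine le_trans ?_ h1
    gcongr
    calc lam ^ 2 * 10 ^ 30 ≤ EE lam ^ 2 * EE lam := by gcongr; linarith
      _ = _ := by ring
  have hvis := g.vis h n le_rfl
  refine ⟨?_, ?_, ?_, ?_, ?_, ?_, ?_⟩
  · have h1 := q.ℓ_succ n
    have h2 : L n * (9 / 1000) ^ n ≤ L n * a n := by
      gcongr; exact alow h n le_rfl
    linarith
  · have h1 := p.low.U
    calc 1001 / 1000 * Ut L x n t ≤ 1001 / 1000 * (1012 / 10 * (G / lam)) := by gcongr
      _ = (1001 / 1000 * (1012 / 10)) * (1 / lam) * G := by ring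
      _ ≤ (1001 / 1000 * (1012 / 10)) * (1 / 10 ^ 30) * G := by gcongr
      _ ≤ (9 / 10 / 10 ^ 20) * G := by gcongr ?_ * _; norm_num
      _ ≤ (9 / 10 / 10 ^ 20) * (10 / 9 * (L n * x n t)) := by gcongr
      _ = _ := by ring
  · have h1 := q.EE_small 1 (α := -(299 / 10000)) (by norm_num)
    have h2 := q.C_hi (n + 1)
    have h3 := q.Cp (n + 1)
    have h4 : |x (n + 2) t| ≤ 2 * a n := by
      refine (g.x_le p.mem ((n + 2))).trans (p.Y2.trans ?_)
      have h5 := p.b0
      have h6 : Real.exp (-(147 / 10000) * lam) ≤ 1 := (q.exp_small (by norm_num)).trans (by norm_num)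
      have h7 : Real.exp (-(147 / 10000) * lam) * (a n * rt C x n t) ≤ 1 * (a n * 1) := by gcongr
      linarith
    have h5 : C (n + 1) * lam ≤ 1 / 10 ^ 20 := by
      refine le_trans ?_ h1
      rw [pow_one, mul_comm]
      gcongr
    rw [q.L_succ n]
    calc C (n + 1) * (lam * L n) * |x (n + 2) t| ≤ C (n + 1) * (lam * L n) * (2 * a n) := by gcongr
      _ = 2 * (C (n + 1) * lam) * G := by rw [hG]; ring
      _ ≤ 2 * (1 / 10 ^ 20) * (10 / 9 * (L n * x n t)) := by gcongr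
      _ = (2 / 10 ^ 20 * (10 / 9)) * (L n * x n t) := by ring
      _ ≤ _ := by gcongr ?_ * _; norm_num
  · rw [q.L_succ n]
    have h1 : (a n * rt C x n t) ^ 2 ≤ 2 * (x n t ^ 2 * rt C x n t) := by
      calc (a n * rt C x n t) ^ 2 = a n ^ 2 * rt C x n t * rt C x n t := by ring
        _ ≤ (10 / 9 * x n t) ^ 2 * rt C x n t * 1 := by gcongr
        _ = (100 / 81) * (x n t ^ 2 * rt C x n t) := by ring
        _ ≤ _ := by gcongr; norm_num
    calc 1001 / 1000 * (lam * L n) * Yk κ x w (n + 2) t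
        ≤ 1001 / 1000 * (lam * L n) * (4 * (Real.exp (-(294 / 10000) * lam)
          * (2 * (x n t ^ 2 * rt C x n t)))) := by
          gcongr
          refine hY2.trans ?_
          gcongr
      _ = (8008 / 1000 * (lam * Real.exp (-(294 / 10000) * lam)))
          * (L n * x n t ^ 2 * rt C x n t) := by ring
      _ ≤ (lam ^ 2 * 10 ^ 30 * Real.exp (-(294 / 10000) * lam))
          * (L n * x n t ^ 2 * rt C x n t) := by
          have h2 : lam ≤ lam ^ 2 := by nlinarith [q.lam1]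
          have h3 : 8008 / 1000 * (lam * Real.exp (-(294 / 10000) * lam))
              ≤ lam ^ 2 * 10 ^ 30 * Real.exp (-(294 / 10000) * lam) := by
            have h4 := Real.exp_pos (-(294 / 10000) * lam)
            have h5 : 8008 / 1000 * lam ≤ lam ^ 2 * 10 ^ 30 := by nlinarith
            calc 8008 / 1000 * (lam * Real.exp (-(294 / 10000) * lam))
                = (8008 / 1000 * lam) * Real.exp (-(294 / 10000) * lam) := by ring
              _ ≤ _ := by gcongr
          gcongr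
      _ ≤ (1 / 10 ^ 20) * (L n * x n t ^ 2 * rt C x n t) := by gcongr
      _ ≤ _ := by
          have : 0 < L n * x n t ^ 2 * rt C x n t := by positivity
          gcongr <;> norm_num
  · have h1 : w (n + 1) t ^ 2 ≤ 40000 * (dl1 lam * (a n * rt C x n t) ^ 2) := by
      have h2 := p.w1
      have h3 := g.sy.w0 (n + 1) t p.mem
      have h4 : dl1 lam ≤ 1 := by have := dl1_small1 q; linarith
      calc w (n + 1) t ^ 2 ≤ (200 * dl1 lam * a n * rt C x n t) ^ 2 := by gcongr
        _ = 40000 * (dl1 lam * dl1 lam * (a n * rt C x n t) ^ 2) := by ring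
        _ ≤ 40000 * (dl1 lam * 1 * (a n * rt C x n t) ^ 2) := by gcongr
        _ = _ := by ring
    have h2 : (a n * rt C x n t) ^ 2 ≤ 2 * (a n * x n t) := by
      calc (a n * rt C x n t) ^ 2 = a n * a n * rt C x n t ^ 2 := by ring
        _ ≤ a n * (10 / 9 * x n t) * 1 ^ 2 := by gcongr
        _ = (10 / 9) * (a n * x n t) := by ring
        _ ≤ _ := by gcongr; norm_num
    have h3 : dl1 lam ≤ Real.exp (-(294 / 10000) * lam) := by
      apply Real.exp_le_exp.2
      linarith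
    have h4 := Real.exp_pos (-(294 / 10000) * lam)
    calc 1001 / 1000 * L n * (w (n + 1) t ^ 2 + Yk κ x w (n + 2) t)
        ≤ 1001 / 1000 * L n * (40000 * (Real.exp (-(294 / 10000) * lam) * (2 * (a n * x n t)))
          + 4 * (Real.exp (-(294 / 10000) * lam) * (2 * (a n * x n t)))) := by
          have e1 : w (n + 1) t ^ 2
              ≤ 40000 * (Real.exp (-(294 / 10000) * lam) * (2 * (a n * x n t))) := by
            refine h1.trans ?_
            gcongr
          have e2 : Yk κ x w (n + 2) t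
              ≤ 4 * (Real.exp (-(294 / 10000) * lam) * (2 * (a n * x n t))) := by
            refine hY2.trans ?_
            gcongr
          gcongr
      _ = (1001 / 1000 * 80008) * (Real.exp (-(294 / 10000) * lam)) * (L n * a n * x n t) := by
          ring
      _ ≤ 10 ^ 10 * (Real.exp (-(294 / 10000) * lam)) * (L n * a n * x n t) := by
          gcongr ?_ * _ * _
          norm_num
      _ = 1 / 10 ^ 10 / lam * (lam * 10 ^ 20 * Real.exp (-(294 / 10000) * lam))
          * (L n * a n * x n t) := by field_simp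
      _ ≤ 1 / 10 ^ 10 / lam * 1 * (L n * a n * x n t) := by
          gcongr
          refine le_trans ?_ (hs.trans (by norm_num))
          have h5 : lam ≤ lam ^ 2 := by nlinarith [q.lam1]
          gcongr <;> norm_num
      _ = _ := by rw [hG]; ring
  · rw [← mul_div_assoc, le_div_iff₀ hl]; linarith
  · have h1 : ℓ n ≤ 12 / 10 ^ 5 * (G / lam) := by
      rw [← mul_div_assoc, le_div_iff₀ hl]; linarith
    refine h1.trans ?_
    calc 12 / 10 ^ 5 * (G / lam) = (12 / 10 ^ 5) * (1 / lam) * G := by ring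
      _ ≤ (12 / 10 ^ 5) * (1 / 10 ^ 30) * G := by gcongr
      _ ≤ (9 / 10 / 10 ^ 20) * G := by gcongr ?_ * _; norm_num
      _ ≤ (9 / 10 / 10 ^ 20) * (10 / 9 * (L n * x n t)) := by gcongr
      _ = _ := by ring

end Gd

end Pool.Agent.Y5.F
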